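import Mathlib
import Pool.Agent.W744.NG.YSt

set_option autoImplicit false
set_option linter.unusedSectionVars false
set_option linter.unusedVariables false

/-!
Dyadic labels of a nonatomic standard probability space, and automorphisms which permute them.
-/

namespace Pool.Agent.V7H90.MM

open MeasureTheory Set Filter Topology
open scoped ENNReal symmDiff
open Pool.H359R3 Pool.H359R3.IX Pool.H359R3.WH
open Pool.Agent.W744.NG Pool.Agent.W744.NG.YSt

/-- labels at all dyadic levels and automorphisms which realize all permutations of the labels -/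
structure LS {Z : Type} [MeasurableSpace Z] (m : Measure Z) where
  L : ∀ r, Z → Fin (2 ^ r)
  act : ∀ r, Equiv.Perm (Fin (2 ^ r)) → AU m
  meas : ∀ r, Measurable (L r)
  L_act : ∀ r σ z, L r ((act r σ).1 z) = σ (L r z)
  unif : ∀ r i, m.real {z | L r z = i} = 1 / 2 ^ r
  ref : ∀ r s z, (L r z : ℕ) = (L (r + s) z : ℕ) / 2 ^ s
  gen : ∀ B : Set Z, MeasurableSet B → ∀ ε : ℝ, 0 < ε →
    ∃ r, ∃ s : Set (Fin (2 ^ r)), m.real (B ∆ {z | L r z ∈ s}) < ε

theorem exists_LS {Z : Type} [MeasurableSpace Z] [StandardBorelSpace Z] (m : Measure Z)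
    [IsProbabilityMeasure m] [NullSingletonClass m] : Nonempty (LS m) := by
  obtain ⟨e, he⟩ := Pool.H359R3.MX.exists_iso (ν := m)
  have hval : ∀ (r : ℕ) (x : ℝ), (flf (2 ^ r) (Int.fract x) : ℕ) = fl (2 ^ r) (Int.fract x) := fun r x =>
    flf_val _ _ (fr_mem x)
  refine ⟨⟨fun r z => flf (2 ^ r) (Int.fract (e z)), fun r σ => ⟨e.trans ((AE (2 ^ r) σ).1.trans e.symm),
    ((he.symm e).comp (AE (2 ^ r) σ).2).comp he⟩, ?_, ?_, ?_, ?_, ?_⟩⟩
  · intro r
    exact (flf_meas (2 ^ r)).comp (measurable_fract.comp e.measurable)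
  · intro r σ z
    show flf (2 ^ r) (Int.fract (e (e.symm ((AE (2 ^ r) σ).1 (e z))))) = _
    rw [MeasurableEquiv.apply_symm_apply]
    show flf (2 ^ r) (Int.fract (AF (2 ^ r) σ (e z))) = _
    rw [AF_fract, (rzf_mem (2 ^ r) σ _ (fr_mem (e z))).2]
  · intro r i
    have h0 : m.real {z | flf (2 ^ r) (Int.fract (e z)) = i} = lam.real {x | flf (2 ^ r) (Int.fract x) = i} :=
      Tower.mrp e he {x | flf (2 ^ r) (Int.fract x) = i}
    rw [h0]
    have h1 : lam.real {x | flf (2 ^ r) (Int.fract x) = i} = lam.real {x | (fun k => k = i) (flf (2 ^ r) x)} := by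
      apply measureReal_congr
      filter_upwards [ae_Ico] with x hx
      apply propext
      show flf (2 ^ r) (Int.fract x) = i ↔ flf (2 ^ r) x = i
      rw [Int.fract_eq_self.2 ⟨hx.1, hx.2⟩]
    rw [h1, lam_lab (2 ^ r) (fun k => k = i)]
    have h2 : nc (fun k : Fin (2 ^ r) => k = i) = 1 := by
      rw [← nc_eq]
      have : (Finset.univ.filter (fun k : Fin (2 ^ r) => k = i)).card = 1 := by
        rw [Finset.card_eq_one]
        exact ⟨i, by ext k; simp⟩
      rw [this, Nat.cast_one]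
    rw [h2]
    push_cast
    rfl
  · intro r s z
    show (flf (2 ^ r) (Int.fract (e z)) : ℕ) = (flf (2 ^ (r + s)) (Int.fract (e z)) : ℕ) / 2 ^ s
    rw [hval, hval, pow_add]
    exact fl_div _ _ (by positivity) (by positivity) _
  · intro B hB ε hε
    obtain ⟨N, hN⟩ := Tower.apxAll (e.symm ⁻¹' B) (e.symm.measurable hB) ε hε
    have h2 : N < 2 ^ N := Nat.lt_two_pow_self
    obtain ⟨C, hC⟩ := hN (2 ^ N) h2.le
    refine ⟨N, {w | (w : ℕ) ∈ C}, ?_⟩
    refine lt_of_le_of_lt (le_of_eq ?_) hC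
    rw [← Tower.mrp e he]
    apply measureReal_congr
    have h3 : (e ⁻¹' ((e.symm ⁻¹' B) ∆ {x | fl (2 ^ N) x ∈ C}) : Set Z) = B ∆ {y | fl (2 ^ N) (e y) ∈ C} := by
      ext y
      simp [Set.mem_symmDiff]
    rw [h3]
    refine (ae_eq_refl B).symmDiff ?_
    have h5 := he.quasiMeasurePreserving.ae ae_Ico
    filter_upwards [h5] with y hy2
    apply propext
    show ((flf (2 ^ N) (Int.fract (e y)) : Fin (2 ^ N)) : ℕ) ∈ C ↔ fl (2 ^ N) (e y) ∈ C
    rw [hval, Int.fract_eq_self.2 ⟨hy2.1, hy2.2⟩]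

section
variable {Z : Type} [MeasurableSpace Z] {m : Measure Z} [IsProbabilityMeasure m]

/-- integration of functions of labels -/
theorem LS.int_lab (D : LS m) (r : ℕ) (φ : Fin (2 ^ r) → ℝ) :
    ∫ z, φ (D.L r z) ∂m = (∑ i, φ i) / 2 ^ r := by
  have h1 : ∫ z, φ (D.L r z) ∂m = ∫ i, φ i ∂(m.map (D.L r)) := by
    rw [integral_map (D.meas r).aemeasurable]
    exact (measurable_of_countable φ).aestronglyMeasurable
  have : IsProbabilityMeasure (m.map (D.L r)) := Measure.isProbabilityMeasure_map (D.meas r).aemeasurable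
  have hint : Integrable φ (m.map (D.L r)) := by
    refine Integrable.of_bound (measurable_of_countable φ).aestronglyMeasurable (∑ i, ‖φ i‖)
      (Eventually.of_forall fun i => ?_)
    exact Finset.single_le_sum (f := fun i => ‖φ i‖) (fun i _ => norm_nonneg _) (Finset.mem_univ i)
  rw [h1, integral_fintype hint]
  rw [Finset.sum_div]
  refine Finset.sum_congr rfl fun i _ => ?_
  rw [map_measureReal_apply (D.meas r) (measurableSet_singleton i)]
  have : D.L r ⁻¹' {i} = {z | D.L r z = i} := rfl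
  rw [this, D.unif, smul_eq_mul]
  ring

/-- product structure of the labels: the first coordinate is the label of lower level -/
theorem exists_digits (r I : ℕ) : ∃ φ : Fin (2 ^ (r + r * I)) ≃ (Fin (I + 1) → Fin (2 ^ r)),
    ∀ ℓ, ((φ ℓ 0 : Fin (2 ^ r)) : ℕ) = (ℓ : ℕ) / 2 ^ (r * I) := by
  have e0 : 2 ^ (r + r * I) = 2 ^ r * 2 ^ (r * I) := pow_add _ _ _
  have hc : Fintype.card (Fin (2 ^ (r * I))) = Fintype.card (Fin I → Fin (2 ^ r)) := by
    simp [pow_mul]
  let e2 : Fin (2 ^ (r * I)) ≃ (Fin I → Fin (2 ^ r)) := Fintype.equivOfCardEq hc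
  let φ : Fin (2 ^ (r + r * I)) ≃ (Fin (I + 1) → Fin (2 ^ r)) :=
    (finCongr e0).trans (finProdFinEquiv.symm.trans
      ((Equiv.prodCongr (Equiv.refl _) e2).trans (Fin.consEquiv (fun _ => Fin (2 ^ r)))))
  refine ⟨φ, fun ℓ => ?_⟩
  rfl

/-- pairwise independent copies of the labels -/
theorem LS.copies (D : LS m) (r I : ℕ) : ∃ h : Fin (I + 1) → AU m, ∀ F F' : Fin (2 ^ r) → ℝ, ∑ v, F v = 0 →
    ∀ i i', i ≠ i' → ∫ z, F (D.L r ((h i).1 z)) * F' (D.L r ((h i').1 z)) ∂m = 0 := by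
  obtain ⟨φ, hφ⟩ := exists_digits r I
  let σ : Fin (I + 1) → Equiv.Perm (Fin (2 ^ (r + r * I))) := fun i =>
    φ.trans ((Equiv.arrowCongr (Equiv.swap 0 i) (Equiv.refl _)).trans φ.symm)
  refine ⟨fun i => D.act (r + r * I) (σ i), fun F F' hF i i' hii => ?_⟩
  have key : ∀ i z, D.L r ((D.act (r + r * I) (σ i)).1 z) = φ (D.L (r + r * I) z) i := by
    intro i z
    apply Fin.ext
    rw [D.ref r (r * I), D.L_act, ← hφ]
    show ((φ (φ.symm (_)) 0 : Fin (2 ^ r)) : ℕ) = _
    rw [Equiv.apply_symm_apply]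
    simp [Equiv.arrowCongr]
  simp only [key]
  rw [D.int_lab (r + r * I) (fun ℓ => F (φ ℓ i) * F' (φ ℓ i'))]
  rw [φ.sum_comp (fun ω => F (ω i) * F' (ω i'))]
  have h1 : ∀ ω : Fin (I + 1) → Fin (2 ^ r), F (ω i) * F' (ω i') =
      ∏ j, (if j = i then F (ω j) else if j = i' then F' (ω j) else 1) := by
    intro ω
    rw [Finset.prod_ite, Finset.prod_ite]
    have e1 : Finset.univ.filter (fun j : Fin (I + 1) => j = i) = {i} := by ext; simp
    have e2 : (Finset.univ.filter (fun j : Fin (I + 1) => ¬ j = i)).filter (fun j => j = i') = {i'} := by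
      ext j
      simp only [Finset.mem_filter, Finset.mem_univ, true_and, Finset.mem_singleton]
      constructor
      · exact fun h => h.2
      · intro h
        subst h
        exact ⟨fun h => hii h.symm, rfl⟩
    rw [e1, e2]
    simp
  simp_rw [h1]
  rw [← Fintype.prod_sum (fun (j : Fin (I + 1)) (v : Fin (2 ^ r)) => if j = i then F v else if j = i' then F' v else 1)]
  have h2 : ∏ j : Fin (I + 1), ∑ v, (if j = i then F v else if j = i' then F' v else 1) = 0 := by
    apply Finset.prod_eq_zero (Finset.mem_univ i)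
    simpa using hF
  rw [h2, zero_div]

end

end Pool.Agent.V7H90.MM
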