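import Mathlib
import Pool.Agent.W744.NG.Theta

set_option autoImplicit false
set_option linter.unusedSectionVars false
set_option linter.unusedVariables false

/-!
The mean of the absolute values of fibre integrals.
-/

namespace Pool.Agent.V7H90.MM

open MeasureTheory Set Filter Topology
open scoped ENNReal symmDiff
open Pool.H359R3 Pool.H359R3.IX
open Pool.Agent.W744.NG Pool.Agent.W744.NG.Dens

/-- measurable and bounded by one -/
structure B1 {Z : Type} [MeasurableSpace Z] (f : Z → ℝ) : Prop where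
  meas : Measurable f
  bd : ∀ z, |f z| ≤ 1

section gen
variable {Z W : Type} [MeasurableSpace Z] [MeasurableSpace W] {m : Measure Z} [IsProbabilityMeasure m]

theorem B1.intble {f : Z → ℝ} (hf : B1 f) : Integrable f m :=
  Integrable.of_bound hf.meas.aestronglyMeasurable 1 (Eventually.of_forall hf.bd)

theorem B1.comp {f : Z → ℝ} (hf : B1 f) {g : W → Z} (hg : Measurable g) : B1 (fun w => f (g w)) :=
  ⟨hf.meas.comp hg, fun w => hf.bd _⟩

theorem B1.prod {ι : Type} (s : Finset ι) {f : ι → Z → ℝ} (hf : ∀ i, B1 (f i)) :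
    B1 (fun z => ∏ i ∈ s, f i z) := by
  refine ⟨Finset.measurable_prod _ fun i _ => (hf i).meas, fun z => ?_⟩
  rw [Finset.abs_prod]
  exact Finset.prod_le_one (fun i _ => abs_nonneg _) (fun i _ => (hf i).bd z)

theorem B1.sub_intble {f g : Z → ℝ} (hf : B1 f) (hg : B1 g) : Integrable (fun z => |f z - g z|) m :=
  (hf.intble.sub hg.intble).abs

theorem prod_sub_le {ι : Type} (s : Finset ι) (a b : ι → ℝ) (ha : ∀ i, |a i| ≤ 1) (hb : ∀ i, |b i| ≤ 1) :
    |∏ i ∈ s, a i - ∏ i ∈ s, b i| ≤ ∑ i ∈ s, |a i - b i| := by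
  classical
  induction s using Finset.induction_on with
  | empty => simp
  | insert i s hi ih =>
    rw [Finset.prod_insert hi, Finset.prod_insert hi, Finset.sum_insert hi]
    have h1 : a i * ∏ j ∈ s, a j - b i * ∏ j ∈ s, b j =
        (a i - b i) * ∏ j ∈ s, a j + b i * (∏ j ∈ s, a j - ∏ j ∈ s, b j) := by ring
    rw [h1]
    refine (abs_add_le _ _).trans ?_
    rw [abs_mul, abs_mul]
    have h2 : |∏ j ∈ s, a j| ≤ 1 := by
      rw [Finset.abs_prod]
      exact Finset.prod_le_one (fun i _ => abs_nonneg _) (fun i _ => ha i)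
    have h3 : |a i - b i| * |∏ j ∈ s, a j| ≤ |a i - b i| := mul_le_of_le_one_right (abs_nonneg _) h2
    have h4 : |b i| * |∏ j ∈ s, a j - ∏ j ∈ s, b j| ≤ |∏ j ∈ s, a j - ∏ j ∈ s, b j| :=
      mul_le_of_le_one_left (abs_nonneg _) (hb i)
    linarith

theorem abs_int_le {f : Z → ℝ} (hf : ∀ z, |f z| ≤ 1) : |∫ z, f z ∂m| ≤ 1 := by
  have := norm_integral_le_of_norm_le_const (μ := m) (f := f) (C := 1) (Eventually.of_forall hf)
  simpa using this

end gen

section
variable {X Y : Type} [MeasurableSpace X] [StandardBorelSpace X] [MeasurableSpace Y] [StandardBorelSpace Y]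
  {μ : Measure X} {ν : Measure Y} [IsProbabilityMeasure μ] [IsProbabilityMeasure ν]

/-- the mean of the absolute values of the fibre integrals -/
noncomputable def N1 (μ : Measure X) (ν : Measure Y) (P : X × Y → ℝ) : ℝ := ∫ x, |∫ y, P (x, y) ∂ν| ∂μ

theorem fib_meas {P : X × Y → ℝ} (hP : Measurable P) : Measurable (fun x => ∫ y, P (x, y) ∂ν) :=
  (hP.stronglyMeasurable.integral_prod_right' (ν := ν)).measurable

theorem fib_abs_intble {P : X × Y → ℝ} (hP : B1 P) : Integrable (fun x => |∫ y, P (x, y) ∂ν|) μ := by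
  refine Integrable.of_bound (fib_meas hP.meas).abs.aestronglyMeasurable 1 (Eventually.of_forall fun x => ?_)
  rw [Real.norm_eq_abs, abs_abs]
  exact abs_int_le fun y => hP.bd (x, y)

theorem N1_nonneg (P : X × Y → ℝ) : 0 ≤ N1 μ ν P := integral_nonneg fun x => abs_nonneg _

/-- invariance under skew products -/
theorem N1_sk (T : AU μ) (Φ : Coc X ν) (P : X × Y → ℝ) :
    N1 μ ν (fun z => P (sk (T.1 : X → X) Φ z)) = N1 μ ν P := by
  unfold N1
  have h1 : ∀ x, ∫ y, P (sk (T.1 : X → X) Φ (x, y)) ∂ν = ∫ y, P (T.1 x, y) ∂ν := fun x =>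
    (Φ.1 x).2.integral_comp' (g := fun y => P (T.1 x, y))
  simp_rw [h1]
  exact T.2.integral_comp' (g := fun x => |∫ y, P (x, y) ∂ν|)

theorem N1_iter (T : AU μ) (Φ : Coc X ν) (P : X × Y → ℝ) (n : ℕ) :
    N1 μ ν (fun z => P ((sk (T.1 : X → X) Φ)^[n] z)) = N1 μ ν P := by
  induction n with
  | zero => rfl
  | succ n ih =>
    rw [← ih]
    exact N1_sk T Φ (fun z => P ((sk (T.1 : X → X) Φ)^[n] z))

/-- the fibre integral is at most the integral -/
theorem N1_le (P : X × Y → ℝ) (hP : Integrable P (μ.prod ν)) : N1 μ ν P ≤ ∫ z, |P z| ∂(μ.prod ν) := by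
  unfold N1
  rw [integral_prod _ hP.abs]
  refine integral_mono_of_nonneg (Eventually.of_forall fun x => abs_nonneg _) ?_
    (Eventually.of_forall fun x => abs_integral_le_integral_abs)
  exact hP.abs.integral_prod_left

/-- comparison -/
theorem N1_sub (P Q : X × Y → ℝ) (hP : B1 P) (hQ : B1 Q) :
    N1 μ ν P ≤ N1 μ ν Q + ∫ z, |P z - Q z| ∂(μ.prod ν) := by
  have hPi : Integrable P (μ.prod ν) := hP.intble
  have hQi : Integrable Q (μ.prod ν) := hQ.intble
  have h1 : N1 μ ν P ≤ N1 μ ν Q + N1 μ ν (fun z => P z - Q z) := by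
    unfold N1
    have hd : Integrable (fun x => |∫ y, P (x, y) - Q (x, y) ∂ν|) μ :=
      ((hPi.sub hQi).integral_prod_left).abs
    rw [← integral_add (fib_abs_intble hQ) hd]
    refine integral_mono (fib_abs_intble hP) ((fib_abs_intble hQ).add hd) fun x => ?_
    show |∫ y, P (x, y) ∂ν| ≤ |∫ y, Q (x, y) ∂ν| + |∫ y, P (x, y) - Q (x, y) ∂ν|
    have e1 : Integrable (fun y => P (x, y)) ν := (hP.comp measurable_prodMk_left).intble
    have e2 : Integrable (fun y => Q (x, y)) ν := (hQ.comp measurable_prodMk_left).intble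
    rw [integral_sub e1 e2]
    have := abs_add_le (∫ y, Q (x, y) ∂ν) (∫ y, P (x, y) ∂ν - ∫ y, Q (x, y) ∂ν)
    rwa [add_sub_cancel] at this
  refine h1.trans (add_le_add le_rfl ?_)
  exact N1_le _ (hPi.sub hQi)

/-- comparison of products -/
theorem N1_prod {ι : Type} (s : Finset ι) (P Q : ι → X × Y → ℝ) (hP : ∀ i, B1 (P i)) (hQ : ∀ i, B1 (Q i)) :
    N1 μ ν (fun z => ∏ i ∈ s, P i z) ≤ N1 μ ν (fun z => ∏ i ∈ s, Q i z) +
      ∑ i ∈ s, ∫ z, |P i z - Q i z| ∂(μ.prod ν) := by
  refine (N1_sub _ _ (B1.prod s hP) (B1.prod s hQ)).trans (add_le_add le_rfl ?_)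
  rw [← integral_finsetSum s fun i _ => (hP i).sub_intble (hQ i)]
  refine integral_mono ((B1.prod s hP).sub_intble (B1.prod s hQ))
    (integrable_finsetSum s fun i _ => (hP i).sub_intble (hQ i)) fun z => ?_
  exact prod_sub_le s _ _ (fun i => (hP i).bd z) (fun i => (hQ i).bd z)

/-- the skew product preserves the product measure, iterates -/
theorem sk_iter_mp (T : AU μ) (Φ : Coc X ν) (n : ℕ) :
    MeasurePreserving ((sk (T.1 : X → X) Φ)^[n]) (μ.prod ν) (μ.prod ν) := (sk_mp T Φ).iterate n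

theorem int_comp_mp {Z : Type} [MeasurableSpace Z] {m : Measure Z} {f : Z → Z} (hf : MeasurePreserving f m m)
    {g : Z → ℝ} (hg : Measurable g) : ∫ z, g (f z) ∂m = ∫ z, g z ∂m := by
  have h1 : ∫ z, g z ∂m = ∫ z, g z ∂(m.map f) := by rw [hf.map_eq]
  rw [h1, integral_map hf.measurable.aemeasurable hg.aestronglyMeasurable]

end

end Pool.Agent.V7H90.MM
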