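import Mathlib
import Pool.Agent.V7H90.MM.N1

set_option autoImplicit false
set_option linter.unusedSectionVars false
set_option linter.unusedVariables false

/-!
Mixing of higher order and frequencies of names along an arithmetic progression of shifts.
-/

namespace Pool.Agent.V7H90.MM

open MeasureTheory Set Filter Topology
open scoped ENNReal symmDiff

/-- times starting at zero with gaps at least `N` -/
def Gap (k N : ℕ) (n : Fin (k + 1) → ℕ) : Prop := n 0 = 0 ∧ ∀ i j, i < j → n i + N ≤ n j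

theorem Gap.mono {k N N' : ℕ} (h : N ≤ N') {n : Fin (k + 1) → ℕ} (hn : Gap k N' n) : Gap k N n :=
  ⟨hn.1, fun i j hij => (Nat.add_le_add_left h _).trans (hn.2 i j hij)⟩

/-- mixing of `k + 1` sets -/
def MixOrd {Z : Type} [MeasurableSpace Z] (m : Measure Z) (S : Z → Z) (k : ℕ) : Prop :=
  ∀ A : Fin (k + 1) → Set Z, (∀ i, MeasurableSet (A i)) → ∀ ε : ℝ, 0 < ε → ∃ N, ∀ n, Gap k N n →
    |m.real (⋂ i, S^[n i] ⁻¹' A i) - ∏ i, m.real (A i)| < ε

section
variable {Z : Type} [MeasurableSpace Z] {m : Measure Z} {S : Z → Z} {k : ℕ}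

theorem MixOrd.ev (h : MixOrd m S k) (A : Fin (k + 1) → Set Z) (hA : ∀ i, MeasurableSet (A i)) (ε : ℝ)
    (hε : 0 < ε) : ∀ᶠ N in atTop, ∀ n, Gap k N n →
      |m.real (⋂ i, S^[n i] ⁻¹' A i) - ∏ i, m.real (A i)| < ε := by
  obtain ⟨N, hN⟩ := h A hA ε hε
  filter_upwards [eventually_ge_atTop N] with N' hN' n hn
  exact hN n (hn.mono hN')

theorem mix_two (h : MixOrd m S 1) (A B : Set Z) (hA : MeasurableSet A) (hB : MeasurableSet B) (ε : ℝ)
    (hε : 0 < ε) : ∀ᶠ n in atTop, |m.real (A ∩ S^[n] ⁻¹' B) - m.real A * m.real B| < ε := by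
  obtain ⟨N, hN⟩ := h ![A, B] (by intro i; fin_cases i <;> assumption) ε hε
  filter_upwards [eventually_ge_atTop N] with n hn
  have h1 := hN ![0, n] ⟨rfl, by
    intro i j hij
    fin_cases i <;> fin_cases j <;> simp_all⟩
  rw [Fin.prod_univ_two] at h1
  have h2 : (⋂ i : Fin 2, S^[(![0, n] : Fin 2 → ℕ) i] ⁻¹' ((![A, B] : Fin 2 → Set Z) i)) = A ∩ S^[n] ⁻¹' B := by
    ext z
    simp [Fin.forall_fin_two]
  rw [h2] at h1
  exact h1

/-- mixing of lower order -/
theorem MixOrd.pred [IsProbabilityMeasure m] (h : MixOrd m S (k + 1)) : MixOrd m S k := by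
  intro A hA ε hε
  obtain ⟨N, hN⟩ := h (Fin.snoc (α := fun _ => Set Z) A univ) (by
    intro i
    refine Fin.lastCases ?_ (fun i => ?_) i
    · rw [Fin.snoc_last]
      exact MeasurableSet.univ
    · rw [Fin.snoc_castSucc]
      exact hA i) ε hε
  refine ⟨N, fun n hn => ?_⟩
  have h1 := hN (Fin.snoc (α := fun _ => ℕ) n (n (Fin.last k) + N)) ⟨by
    rw [show (0 : Fin (k + 2)) = Fin.castSucc 0 from rfl, Fin.snoc_castSucc]
    exact hn.1, by
    intro i j hij
    rcases Fin.eq_castSucc_or_eq_last j with ⟨j, rfl⟩ | rfl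
    · have hi : i ≠ Fin.last (k + 1) := by
        rintro rfl
        exact absurd hij (not_lt.2 (Fin.le_last _))
      obtain ⟨i, rfl⟩ := Fin.exists_castSucc_eq.2 hi
      rw [Fin.snoc_castSucc, Fin.snoc_castSucc]
      exact hn.2 i j (Fin.castSucc_lt_castSucc_iff.1 hij)
    · have hi : i ≠ Fin.last (k + 1) := ne_of_lt hij
      obtain ⟨i, rfl⟩ := Fin.exists_castSucc_eq.2 hi
      rw [Fin.snoc_castSucc, Fin.snoc_last]
      rcases eq_or_lt_of_le (Fin.le_last i) with h | h
      · rw [h]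
      · have := hn.2 i (Fin.last k) h
        omega⟩
  rw [Fin.prod_univ_castSucc] at h1
  simp only [Fin.snoc_castSucc, Fin.snoc_last, probReal_univ, mul_one] at h1
  have h2 : (⋂ i : Fin (k + 2), S^[(Fin.snoc (α := fun _ => ℕ) n (n (Fin.last k) + N) : Fin (k + 2) → ℕ) i] ⁻¹'
      ((Fin.snoc (α := fun _ => Set Z) A univ : Fin (k + 2) → Set Z) i)) = ⋂ i, S^[n i] ⁻¹' A i := by
    ext z
    simp only [mem_iInter]
    constructor
    · intro h i
      have := h i.castSucc
      rwa [Fin.snoc_castSucc, Fin.snoc_castSucc] at this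
    · intro h i
      refine Fin.lastCases ?_ (fun i => ?_) i
      · simp only [Fin.snoc_last, mem_preimage, mem_univ]
      · rw [Fin.snoc_castSucc, Fin.snoc_castSucc]
        exact h i
  rw [h2] at h1
  exact h1

end

section
variable {X : Type} [MeasurableSpace X] {μ : Measure X} [IsProbabilityMeasure μ]

/-- the frequency of the name `w` -/
noncomputable def emp {C : Type} [DecidableEq C] {k : ℕ} (S : X → X) (c : X → C) (L D : ℕ) (n : Fin (k + 1) → ℕ)
    (w : Fin (k + 1) → C) (x : X) : ℝ :=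
  (∑ s ∈ Finset.range L, (if (fun j => c (S^[s * D + n j] x)) = w then (1 : ℝ) else 0)) / L

/-- second moment of the frequencies -/
theorem emp_l2 {S : X → X} (hS : MeasurePreserving S μ μ) (k : ℕ) (h2 : MixOrd μ S 1) (hk : MixOrd μ S k)
    {C : Type} [Fintype C] [DecidableEq C] (c : X → C) (hc : ∀ v, MeasurableSet {x | c x = v})
    (L : ℕ) (hL : 0 < L) (η : ℝ) (hη : 0 < η) :
    ∃ D : ℕ, ∀ᶠ N in atTop, ∀ n, Gap k N n → ∀ w : Fin (k + 1) → C,
      ∫ x, (emp S c L D n w x - ∏ j, μ.real {x | c x = w j}) ^ 2 ∂μ ≤ 1 / L + 4 * η := by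
  classical
  have hη' : 0 < η / (k + 1) := by positivity
  have hD := eventually_all.2 fun v : C =>
    mix_two h2 {x | c x = v} {x | c x = v} (hc v) (hc v) (η / (k + 1)) hη'
  obtain ⟨D, hD⟩ := (eventually_atTop.1 hD)
  refine ⟨D + 1, ?_⟩
  -- pairs of shifts
  have hN := eventually_all.2 fun w : Fin (k + 1) → C => eventually_all.2 fun s : Fin L =>
    eventually_all.2 fun s' : Fin L => hk.ev (fun j => S^[(s : ℕ) * (D + 1)] ⁻¹' {x | c x = w j} ∩
      S^[(s' : ℕ) * (D + 1)] ⁻¹' {x | c x = w j})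
      (fun j => ((hS.iterate _).measurable (hc _)).inter ((hS.iterate _).measurable (hc _))) η hη
  filter_upwards [hN] with N hN n hn w
  set P : ℝ := ∏ j, μ.real {x | c x = w j} with hP
  have hP0 : 0 ≤ P := Finset.prod_nonneg fun i _ => measureReal_nonneg
  have hP1 : P ≤ 1 := Finset.prod_le_one (fun i _ => measureReal_nonneg) fun i _ => measureReal_le_one
  set E : ℕ → Set X := fun s => {x | (fun j => c (S^[s * (D + 1) + n j] x)) = w} with hE
  have hEeq : ∀ s s', E s ∩ E s' = ⋂ j, S^[n j] ⁻¹' (S^[s * (D + 1)] ⁻¹' {x | c x = w j} ∩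
      S^[s' * (D + 1)] ⁻¹' {x | c x = w j}) := by
    intro s s'
    ext x
    simp only [hE, mem_inter_iff, mem_iInter, mem_preimage, mem_ofPred_eq, funext_iff,
      Function.iterate_add_apply]
    exact ⟨fun h j => ⟨h.1 j, h.2 j⟩, fun h => ⟨fun j => (h j).1, fun j => (h j).2⟩⟩
  have hEm : ∀ s, MeasurableSet (E s) := by
    intro s
    have h1 := hEeq s s
    rw [inter_self] at h1
    rw [h1]
    exact MeasurableSet.iInter fun j => (hS.iterate _).measurable
      (((hS.iterate _).measurable (hc _)).inter ((hS.iterate _).measurable (hc _)))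
  have hmp : ∀ (i : ℕ) (B : Set X), MeasurableSet B → μ.real (S^[i] ⁻¹' B) = μ.real B := by
    intro i B hB
    rw [measureReal_def, (hS.iterate i).measure_preimage hB.nullMeasurableSet, ← measureReal_def]
  -- measures of the events
  have hE1 : ∀ s < L, P - η ≤ μ.real (E s) := by
    intro s hs
    have h1 := hN w ⟨s, hs⟩ ⟨s, hs⟩ n hn
    have h3 := hEeq s s
    rw [inter_self] at h3
    rw [← h3] at h1
    have h4 : ∏ j, μ.real (S^[s * (D + 1)] ⁻¹' {x | c x = w j} ∩ S^[s * (D + 1)] ⁻¹' {x | c x = w j}) = P := by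
      refine Finset.prod_congr rfl fun j _ => ?_
      rw [inter_self, hmp _ _ (hc _)]
    rw [h4] at h1
    have := (abs_lt.1 h1).1
    linarith
  have hE2 : ∀ s < L, ∀ s' < L, s < s' → μ.real (E s ∩ E s') ≤ P ^ 2 + 2 * η := by
    intro s hs s' hs' hss
    have h1 := hN w ⟨s, hs⟩ ⟨s', hs'⟩ n hn
    rw [← hEeq s s'] at h1
    obtain ⟨t, rfl⟩ := Nat.exists_eq_add_of_lt hss
    have h3 : ∀ j, |μ.real (S^[s * (D + 1)] ⁻¹' {x | c x = w j} ∩
        S^[(s + t + 1) * (D + 1)] ⁻¹' {x | c x = w j}) - μ.real {x | c x = w j} * μ.real {x | c x = w j}| ≤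
          η / (k + 1) := by
      intro j
      have h4 : S^[s * (D + 1)] ⁻¹' {x | c x = w j} ∩ S^[(s + t + 1) * (D + 1)] ⁻¹' {x | c x = w j} =
          S^[s * (D + 1)] ⁻¹' ({x | c x = w j} ∩ S^[(t + 1) * (D + 1)] ⁻¹' {x | c x = w j}) := by
        rw [preimage_inter]
        congr 1
        rw [← preimage_comp, ← Function.iterate_add]
        congr 2
        ring
      rw [h4, hmp _ _ ((hc _).inter ((hS.iterate _).measurable (hc _)))]
      have h5 : D ≤ (t + 1) * (D + 1) := by nlinarith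
      exact (hD _ h5 (w j)).le
    have h5 : |∏ j, μ.real (S^[s * (D + 1)] ⁻¹' {x | c x = w j} ∩
        S^[(s + t + 1) * (D + 1)] ⁻¹' {x | c x = w j}) - ∏ j, (μ.real {x | c x = w j} * μ.real {x | c x = w j})| ≤
          ∑ j : Fin (k + 1), η / (k + 1) := by
      refine (prod_sub_le _ _ _ (fun j => ?_) (fun j => ?_)).trans (Finset.sum_le_sum fun j _ => h3 j)
      · rw [abs_of_nonneg measureReal_nonneg]
        exact measureReal_le_one
      · rw [abs_of_nonneg (mul_nonneg measureReal_nonneg measureReal_nonneg)]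
        exact mul_le_one₀ measureReal_le_one measureReal_nonneg measureReal_le_one
    have h6 : ∑ j : Fin (k + 1), η / (k + 1) = η := by
      rw [Finset.sum_const, Finset.card_univ, Fintype.card_fin, nsmul_eq_mul]
      push_cast
      field_simp
    have h7 : ∏ j, (μ.real {x | c x = w j} * μ.real {x | c x = w j}) = P ^ 2 := by
      rw [Finset.prod_mul_distrib, ← hP]
      ring
    rw [h6, h7] at h5
    have h8 := (abs_le.1 h5).2
    have h9 := (abs_lt.1 h1).2
    linarith
  have hE3 : ∀ s < L, ∀ s' < L, s ≠ s' → μ.real (E s ∩ E s') ≤ P ^ 2 + 2 * η := by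
    intro s hs s' hs' hne
    rcases lt_or_gt_of_ne hne with h | h
    · exact hE2 s hs s' hs' h
    · rw [inter_comm]
      exact hE2 s' hs' s hs h
  -- the frequencies
  have hemp : ∀ x, emp S c L (D + 1) n w x = (∑ s ∈ Finset.range L, (E s).indicator (fun _ => (1 : ℝ)) x) / L := by
    intro x
    unfold emp
    congr 1
    refine Finset.sum_congr rfl fun s _ => ?_
    by_cases h : (fun j => c (S^[s * (D + 1) + n j] x)) = w
    · rw [if_pos h, indicator_of_mem (show x ∈ E s from h)]
    · rw [if_neg h, indicator_of_notMem (show x ∉ E s from h)]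
  have hLr : (0 : ℝ) < L := by exact_mod_cast hL
  have hi1 : ∀ s, Integrable ((E s).indicator (fun _ => (1 : ℝ))) μ := fun s =>
    (integrable_const (1 : ℝ)).indicator (hEm s)
  have hI1 : ∫ x, emp S c L (D + 1) n w x ∂μ = (∑ s ∈ Finset.range L, μ.real (E s)) / L := by
    simp_rw [hemp]
    rw [integral_div, integral_finsetSum _ fun s _ => hi1 s]
    congr 1
    refine Finset.sum_congr rfl fun s _ => ?_
    rw [integral_indicator_const _ (hEm s), smul_eq_mul, mul_one]
  have hsq : ∀ x, emp S c L (D + 1) n w x ^ 2 = (∑ s ∈ Finset.range L, ∑ s' ∈ Finset.range L,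
      (E s ∩ E s').indicator (fun _ => (1 : ℝ)) x) / L ^ 2 := by
    intro x
    rw [hemp, div_pow, sq (∑ s ∈ Finset.range L, _), Finset.sum_mul_sum]
    congr 1
    refine Finset.sum_congr rfl fun s _ => Finset.sum_congr rfl fun s' _ => ?_
    rw [← Set.inter_indicator_mul]
    simp
  have hi2 : ∀ s s', Integrable ((E s ∩ E s').indicator (fun _ => (1 : ℝ))) μ := fun s s' =>
    (integrable_const (1 : ℝ)).indicator ((hEm s).inter (hEm s'))
  have hI2 : ∫ x, emp S c L (D + 1) n w x ^ 2 ∂μ = (∑ s ∈ Finset.range L, ∑ s' ∈ Finset.range L,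
      μ.real (E s ∩ E s')) / L ^ 2 := by
    simp_rw [hsq]
    rw [integral_div, integral_finsetSum _ fun s _ => integrable_finsetSum _ fun s' _ => hi2 s s']
    congr 1
    refine Finset.sum_congr rfl fun s _ => ?_
    rw [integral_finsetSum _ fun s' _ => hi2 s s']
    refine Finset.sum_congr rfl fun s' _ => ?_
    rw [integral_indicator_const _ ((hEm s).inter (hEm s')), smul_eq_mul, mul_one]
  have hB1 : P - η ≤ ∫ x, emp S c L (D + 1) n w x ∂μ := by
    rw [hI1, le_div_iff₀ hLr]
    have : ∑ s ∈ Finset.range L, (P - η) ≤ ∑ s ∈ Finset.range L, μ.real (E s) :=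
      Finset.sum_le_sum fun s hs => hE1 s (Finset.mem_range.1 hs)
    rw [Finset.sum_const, Finset.card_range, nsmul_eq_mul] at this
    linarith
  have hB2 : ∫ x, emp S c L (D + 1) n w x ^ 2 ∂μ ≤ 1 / L + (P ^ 2 + 2 * η) := by
    rw [hI2]
    have h1 : ∑ s ∈ Finset.range L, ∑ s' ∈ Finset.range L, μ.real (E s ∩ E s') ≤
        ∑ s ∈ Finset.range L, ∑ s' ∈ Finset.range L, ((if s = s' then (1 : ℝ) else 0) + (P ^ 2 + 2 * η)) := by
      refine Finset.sum_le_sum fun s hs => Finset.sum_le_sum fun s' hs' => ?_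
      by_cases h : s = s'
      · rw [if_pos h]
        have : μ.real (E s ∩ E s') ≤ 1 := measureReal_le_one
        nlinarith
      · rw [if_neg h, zero_add]
        exact hE3 s (Finset.mem_range.1 hs) s' (Finset.mem_range.1 hs') h
    have h3 : ∑ s ∈ Finset.range L, ∑ s' ∈ Finset.range L, ((if s = s' then (1 : ℝ) else 0) + (P ^ 2 + 2 * η)) =
        L + L ^ 2 * (P ^ 2 + 2 * η) := by
      simp only [Finset.sum_add_distrib, Finset.sum_ite_eq, Finset.sum_const, Finset.card_range, nsmul_eq_mul]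
      have : ∑ s ∈ Finset.range L, (if s ∈ Finset.range L then (1 : ℝ) else 0) = L := by
        rw [Finset.sum_congr rfl (fun s hs => if_pos hs)]
        simp
      rw [this]
      ring
    rw [h3] at h1
    rw [div_le_iff₀ (by positivity)]
    refine h1.trans (le_of_eq ?_)
    field_simp
  have hie : Integrable (fun x => emp S c L (D + 1) n w x) μ := by
    simp_rw [hemp]
    exact (integrable_finsetSum _ fun s _ => hi1 s).div_const _
  have hie2 : Integrable (fun x => emp S c L (D + 1) n w x ^ 2) μ := by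
    simp_rw [hsq]
    exact (integrable_finsetSum _ fun s _ => integrable_finsetSum _ fun s' _ => hi2 s s').div_const _
  have hexp : ∫ x, (emp S c L (D + 1) n w x - P) ^ 2 ∂μ =
      ∫ x, emp S c L (D + 1) n w x ^ 2 ∂μ - 2 * P * ∫ x, emp S c L (D + 1) n w x ∂μ + P ^ 2 := by
    have h1 : ∀ x, (emp S c L (D + 1) n w x - P) ^ 2 =
        (emp S c L (D + 1) n w x ^ 2 - 2 * P * emp S c L (D + 1) n w x) + P ^ 2 := fun x => by ring
    simp_rw [h1]
    have h3 : Integrable (fun x => 2 * P * emp S c L (D + 1) n w x) μ := hie.const_mul _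
    have h4 : Integrable (fun x => emp S c L (D + 1) n w x ^ 2 - 2 * P * emp S c L (D + 1) n w x) μ := hie2.sub h3
    rw [integral_add h4 (integrable_const _), integral_sub hie2 h3, integral_const_mul, integral_const]
    simp
  rw [hexp]
  nlinarith

theorem emp_meas {S : X → X} (hS : Measurable S) {k : ℕ} {C : Type} [Fintype C] [DecidableEq C] (c : X → C)
    (hc : ∀ v, MeasurableSet {x | c x = v}) (L D : ℕ) (n : Fin (k + 1) → ℕ) (w : Fin (k + 1) → C) :
    Measurable (emp S c L D n w) := by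
  unfold emp
  refine (Finset.measurable_sum _ fun s _ => ?_).div_const _
  refine Measurable.ite ?_ measurable_const measurable_const
  have h1 : {x | (fun j => c (S^[s * D + n j] x)) = w} = ⋂ j, S^[s * D + n j] ⁻¹' {x | c x = w j} := by
    ext x
    simp [funext_iff]
  rw [h1]
  exact MeasurableSet.iInter fun j => (hS.iterate _) (hc _)

theorem emp_nonneg {S : X → X} {k : ℕ} {C : Type} [DecidableEq C] (c : X → C)
    (L D : ℕ) (n : Fin (k + 1) → ℕ) (w : Fin (k + 1) → C) (x : X) : 0 ≤ emp S c L D n w x := by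
  unfold emp
  refine div_nonneg (Finset.sum_nonneg fun s _ => ?_) (Nat.cast_nonneg _)
  split_ifs <;> norm_num

theorem emp_le {S : X → X} {k : ℕ} {C : Type} [DecidableEq C] (c : X → C)
    (L D : ℕ) (n : Fin (k + 1) → ℕ) (w : Fin (k + 1) → C) (x : X) : emp S c L D n w x ≤ 1 := by
  unfold emp
  refine div_le_one_of_le₀ ?_ (Nat.cast_nonneg _)
  have : ∑ s ∈ Finset.range L, (if (fun j => c (S^[s * D + n j] x)) = w then (1 : ℝ) else 0) ≤
      ∑ s ∈ Finset.range L, 1 := Finset.sum_le_sum fun s _ => by split_ifs <;> norm_num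
  simpa using this

/-- averages over the shifts are averages over the names -/
theorem emp_avg {S : X → X} {k : ℕ} {C : Type} [Fintype C] [DecidableEq C] (c : X → C)
    (L D : ℕ) (n : Fin (k + 1) → ℕ) (A : (Fin (k + 1) → C) → ℝ) (x : X) :
    (∑ s ∈ Finset.range L, A (fun j => c (S^[s * D + n j] x))) / L = ∑ w, emp S c L D n w x * A w := by
  unfold emp
  simp_rw [div_mul_eq_mul_div, Finset.sum_mul]
  rw [← Finset.sum_div, Finset.sum_comm]
  congr 1
  refine Finset.sum_congr rfl fun s _ => ?_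
  simp

theorem abs_le_sq (κ t : ℝ) (hκ : 0 < κ) : |t| ≤ κ + t ^ 2 / κ := by
  rcases le_total |t| κ with h | h
  · have : 0 ≤ t ^ 2 / κ := by positivity
    linarith
  · have h1 : |t| ≤ t ^ 2 / κ := by
      rw [le_div_iff₀ hκ, ← sq_abs, sq]
      exact mul_le_mul_of_nonneg_left h (abs_nonneg _)
    linarith

/-- first moment of the frequencies -/
theorem emp_l1 {S : X → X} (hS : MeasurePreserving S μ μ) (k : ℕ) (h2 : MixOrd μ S 1) (hk : MixOrd μ S k)
    {C : Type} [Fintype C] [DecidableEq C] (c : X → C) (hc : ∀ v, MeasurableSet {x | c x = v})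
    (L : ℕ) (hL : 0 < L) (η κ : ℝ) (hη : 0 < η) (hκ : 0 < κ) :
    ∃ D : ℕ, ∀ᶠ N in atTop, ∀ n, Gap k N n → ∀ w : Fin (k + 1) → C,
      ∫ x, |emp S c L D n w x - ∏ j, μ.real {x | c x = w j}| ∂μ ≤ κ + (1 / L + 4 * η) / κ := by
  obtain ⟨D, hD⟩ := emp_l2 hS k h2 hk c hc L hL η hη
  refine ⟨D, ?_⟩
  filter_upwards [hD] with N hN n hn w
  have h1 := hN n hn w
  set P : ℝ := ∏ j, μ.real {x | c x = w j} with hP
  have hP0 : 0 ≤ P := Finset.prod_nonneg fun i _ => measureReal_nonneg
  have hP1 : P ≤ 1 := Finset.prod_le_one (fun i _ => measureReal_nonneg) fun i _ => measureReal_le_one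
  have hm : Measurable (fun x => emp S c L D n w x - P) := (emp_meas hS.measurable c hc L D n w).sub_const _
  have hb : ∀ x, |emp S c L D n w x - P| ≤ 1 := by
    intro x
    have e1 := emp_nonneg (S := S) c L D n w x
    have e2 := emp_le (S := S) c L D n w x
    rw [abs_le]
    constructor <;> linarith
  have hi : Integrable (fun x => emp S c L D n w x - P) μ :=
    Integrable.of_bound hm.aestronglyMeasurable 1 (Eventually.of_forall hb)
  have hi2 : Integrable (fun x => (emp S c L D n w x - P) ^ 2) μ := by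
    refine Integrable.of_bound (hm.pow_const 2).aestronglyMeasurable 1 (Eventually.of_forall fun x => ?_)
    rw [Real.norm_eq_abs, abs_pow]
    exact pow_le_one₀ (abs_nonneg _) (hb x)
  have h3 : ∫ x, |emp S c L D n w x - P| ∂μ ≤ ∫ x, (κ + (emp S c L D n w x - P) ^ 2 / κ) ∂μ :=
    integral_mono hi.abs ((integrable_const _).add (hi2.div_const _)) fun x => abs_le_sq κ _ hκ
  rw [integral_add (integrable_const _) (hi2.div_const _), integral_const, integral_div] at h3
  simp only [probReal_univ, smul_eq_mul, one_mul] at h3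
  refine h3.trans (add_le_add le_rfl ?_)
  gcongr

end

end Pool.Agent.V7H90.MM
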