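import Mathlib
import Pool.Agent.V7H90.MM.Emp

set_option autoImplicit false
set_option linter.unusedSectionVars false
set_option linter.unusedVariables false

/-!
Integrals of products in which one factor runs over a nearly orthogonal family.
-/

namespace Pool.Agent.V7H90.MM

open MeasureTheory Set Filter Topology
open scoped ENNReal symmDiff

section
variable {Y : Type} [MeasurableSpace Y] {ν : Measure Y} [IsProbabilityMeasure ν]

theorem B1.mul {f g : Y → ℝ} (hf : B1 f) (hg : B1 g) : B1 (fun y => f y * g y) := by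
  refine ⟨hf.meas.mul hg.meas, fun y => ?_⟩
  rw [abs_mul]
  exact mul_le_one₀ (hf.bd y) (abs_nonneg _) (hg.bd y)

theorem bessel {C ι : Type} [Fintype C] [DecidableEq ι]
    (f : C → Y → ℝ) (hf : ∀ c, B1 (f c)) (p : C → ℝ) (hp : ∀ c, 0 ≤ p c) (hp1 : ∑ c, p c = 1) (i : C → ι)
    (β : ℝ) (hβ : ∀ c, ∑ c', (if i c = i c' then p c' else 0) ≤ β)
    (hor : ∀ c c', i c ≠ i c' → ∫ y, f c y * f c' y ∂ν = 0)
    (Q : Y → ℝ) (hQ : B1 Q) (κ : ℝ) (hκ : 0 < κ) : ∑ c, p c * |∫ y, f c y * Q y ∂ν| ≤ κ + β / κ := by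
  classical
  -- signs
  have hs : ∀ c, ∃ s : ℝ, |s| ≤ 1 ∧ |∫ y, f c y * Q y ∂ν| = s * ∫ y, f c y * Q y ∂ν := by
    intro c
    rcases le_total 0 (∫ y, f c y * Q y ∂ν) with h | h
    · exact ⟨1, by simp, by rw [abs_of_nonneg h, one_mul]⟩
    · exact ⟨-1, by simp, by rw [abs_of_nonpos h]; ring⟩
  choose s hs1 hs2 using hs
  set G : Y → ℝ := fun y => ∑ c, p c * s c * f c y with hG
  have hfi : ∀ c, Integrable (f c) ν := fun c => (hf c).intble
  have hGm : Measurable G := Finset.measurable_sum _ fun c _ => (hf c).meas.const_mul _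
  have hGb : ∀ y, |G y| ≤ 1 := by
    intro y
    refine (Finset.abs_sum_le_sum_abs _ _).trans ?_
    rw [← hp1]
    refine Finset.sum_le_sum fun c _ => ?_
    rw [abs_mul, abs_mul, abs_of_nonneg (hp c), mul_assoc]
    exact mul_le_of_le_one_right (hp c) (mul_le_one₀ (hs1 c) (abs_nonneg _) ((hf c).bd y))
  have hGB : B1 G := ⟨hGm, hGb⟩
  have h1 : ∑ c, p c * |∫ y, f c y * Q y ∂ν| = ∫ y, G y * Q y ∂ν := by
    have e1 : ∀ y, G y * Q y = ∑ c, p c * s c * (f c y * Q y) := by
      intro y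
      show (∑ c, p c * s c * f c y) * Q y = _
      rw [Finset.sum_mul]
      exact Finset.sum_congr rfl fun c _ => by ring
    simp_rw [e1]
    have e2 : ∀ c, Integrable (fun y => f c y * Q y) ν := fun c => ((hf c).mul hQ).intble
    rw [integral_finsetSum _ fun c _ => (e2 c).const_mul _]
    refine Finset.sum_congr rfl fun c _ => ?_
    rw [integral_const_mul, hs2 c]
    ring
  have h2 : ∫ y, G y * Q y ∂ν ≤ ∫ y, (κ + G y ^ 2 / κ) ∂ν := by
    have e3 : Integrable (fun y => G y ^ 2) ν := by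
      have : (fun y => G y ^ 2) = fun y => G y * G y := by
        funext y
        ring
      rw [this]
      exact (hGB.mul hGB).intble
    refine integral_mono (hGB.mul hQ).intble ((integrable_const _).add (e3.div_const _)) fun y => ?_
    have e4 : G y * Q y ≤ |G y| := by
      refine (le_abs_self _).trans ?_
      rw [abs_mul]
      exact mul_le_of_le_one_right (abs_nonneg _) (hQ.bd y)
    exact e4.trans (abs_le_sq κ _ hκ)
  have h3 : ∫ y, (κ + G y ^ 2 / κ) ∂ν = κ + (∫ y, G y ^ 2 ∂ν) / κ := by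
    have e3 : Integrable (fun y => G y ^ 2) ν := by
      have : (fun y => G y ^ 2) = fun y => G y * G y := by
        funext y
        ring
      rw [this]
      exact (hGB.mul hGB).intble
    rw [integral_add (integrable_const _) (e3.div_const _), integral_const, integral_div]
    simp
  have h4 : ∫ y, G y ^ 2 ∂ν = ∑ c, ∑ c', (p c * s c) * (p c' * s c') * ∫ y, f c y * f c' y ∂ν := by
    have e1 : ∀ y, G y ^ 2 = ∑ c, ∑ c', (p c * s c) * (p c' * s c') * (f c y * f c' y) := by
      intro y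
      rw [sq, hG, Finset.sum_mul_sum]
      exact Finset.sum_congr rfl fun c _ => Finset.sum_congr rfl fun c' _ => by ring
    simp_rw [e1]
    have e2 : ∀ c c', Integrable (fun y => (p c * s c) * (p c' * s c') * (f c y * f c' y)) ν := fun c c' =>
      ((hf c).mul (hf c')).intble.const_mul _
    rw [integral_finsetSum _ fun c _ => integrable_finsetSum _ fun c' _ => e2 c c']
    refine Finset.sum_congr rfl fun c _ => ?_
    rw [integral_finsetSum _ fun c' _ => e2 c c']
    refine Finset.sum_congr rfl fun c' _ => ?_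
    rw [integral_const_mul]
  have h5 : ∫ y, G y ^ 2 ∂ν ≤ β := by
    rw [h4]
    have e1 : ∀ c, ∑ c', (p c * s c) * (p c' * s c') * ∫ y, f c y * f c' y ∂ν ≤ p c * β := by
      intro c
      have e2 : ∑ c', (p c * s c) * (p c' * s c') * ∫ y, f c y * f c' y ∂ν ≤
          ∑ c', p c * (if i c = i c' then p c' else 0) := by
        refine Finset.sum_le_sum fun c' _ => ?_
        by_cases h : i c = i c'
        · rw [if_pos h]
          refine (le_abs_self _).trans ?_
          rw [abs_mul, abs_mul, abs_mul, abs_mul, abs_of_nonneg (hp c), abs_of_nonneg (hp c')]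
          have e3 : |∫ y, f c y * f c' y ∂ν| ≤ 1 := abs_int_le fun y => ((hf c).mul (hf c')).bd y
          have e4 : p c * |s c| ≤ p c := mul_le_of_le_one_right (hp c) (hs1 c)
          have e5 : p c' * |s c'| ≤ p c' := mul_le_of_le_one_right (hp c') (hs1 c')
          have e6 : p c * |s c| * (p c' * |s c'|) ≤ p c * p c' :=
            mul_le_mul e4 e5 (mul_nonneg (hp c') (abs_nonneg _)) (hp c)
          refine (mul_le_of_le_one_right ?_ e3).trans e6
          exact mul_nonneg (mul_nonneg (hp c) (abs_nonneg _)) (mul_nonneg (hp c') (abs_nonneg _))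
        · rw [if_neg h, hor c c' h, mul_zero, mul_zero]
      refine e2.trans ?_
      rw [← Finset.mul_sum]
      exact mul_le_mul_of_nonneg_left (hβ c) (hp c)
    refine (Finset.sum_le_sum fun c _ => e1 c).trans (le_of_eq ?_)
    rw [← Finset.sum_mul, hp1, one_mul]
  rw [h1]
  refine h2.trans ?_
  rw [h3]
  gcongr

/-- products in which one factor runs over a nearly orthogonal family -/
theorem bessel_prod {C ι : Type} [Fintype C] [DecidableEq ι] {k : ℕ}
    (f : Fin (k + 1) → C → Y → ℝ) (hf : ∀ j c, B1 (f j c)) (p : C → ℝ) (hp : ∀ c, 0 ≤ p c)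
    (hp1 : ∑ c, p c = 1) (i : C → ι)
    (β : ℝ) (hβ : ∀ c, ∑ c', (if i c = i c' then p c' else 0) ≤ β) (l : Fin (k + 1))
    (hor : ∀ c c', i c ≠ i c' → ∫ y, f l c y * f l c' y ∂ν = 0) (κ : ℝ) (hκ : 0 < κ) :
    ∑ w : Fin (k + 1) → C, (∏ j, p (w j)) * |∫ y, ∏ j, f j (w j) y ∂ν| ≤ κ + β / κ := by
  classical
  have h1 : ∑ w : Fin (k + 1) → C, (∏ j, p (w j)) * |∫ y, ∏ j, f j (w j) y ∂ν| =
      ∑ u : C × (Fin k → C), (p u.1 * ∏ j, p (u.2 j)) *
        |∫ y, f l u.1 y * ∏ j, f (l.succAbove j) (u.2 j) y ∂ν| := by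
    rw [← (Fin.insertNthEquiv (fun _ => C) l).sum_comp]
    refine Finset.sum_congr rfl fun u _ => ?_
    have e1 : ∏ j, p ((Fin.insertNthEquiv (fun _ => C) l) u j) = p u.1 * ∏ j, p (u.2 j) := by
      rw [Fin.prod_univ_succAbove _ l]
      simp [Fin.insertNthEquiv]
    have e2 : ∀ y, ∏ j, f j ((Fin.insertNthEquiv (fun _ => C) l) u j) y =
        f l u.1 y * ∏ j, f (l.succAbove j) (u.2 j) y := by
      intro y
      rw [Fin.prod_univ_succAbove _ l]
      simp [Fin.insertNthEquiv]
    rw [e1]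
    simp_rw [e2]
  rw [h1, Fintype.sum_prod_type, Finset.sum_comm]
  have h2 : ∀ w : Fin k → C, ∑ c, (p c * ∏ j, p (w j)) *
      |∫ y, f l c y * ∏ j, f (l.succAbove j) (w j) y ∂ν| ≤ (∏ j, p (w j)) * (κ + β / κ) := by
    intro w
    have e1 := bessel (ν := ν) (f l) (hf l) p hp hp1 i β hβ hor (fun y => ∏ j, f (l.succAbove j) (w j) y)
      (B1.prod _ fun j => hf _ _) κ hκ
    have e2 : ∑ c, (p c * ∏ j, p (w j)) * |∫ y, f l c y * ∏ j, f (l.succAbove j) (w j) y ∂ν| =
        (∏ j, p (w j)) * ∑ c, p c * |∫ y, f l c y * ∏ j, f (l.succAbove j) (w j) y ∂ν| := by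
      rw [Finset.mul_sum]
      exact Finset.sum_congr rfl fun c _ => by ring
    rw [e2]
    exact mul_le_mul_of_nonneg_left e1 (Finset.prod_nonneg fun j _ => hp _)
  refine (Finset.sum_le_sum fun w _ => h2 w).trans (le_of_eq ?_)
  rw [← Finset.sum_mul]
  have h3 : ∑ w : Fin k → C, ∏ j, p (w j) = 1 := by
    rw [← Fintype.prod_sum (fun (_ : Fin k) (c : C) => p c)]
    simp [hp1]
  rw [h3, one_mul]

end

end Pool.Agent.V7H90.MM
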