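import Mathlib
import Pool.Agent.V7H90.MM.Bes
import Pool.Agent.W744.NG.Theta

set_option autoImplicit false
set_option linter.unusedSectionVars false
set_option linter.unusedVariables false

/-!
The main estimate.
-/

namespace Pool.Agent.V7H90.MM

open MeasureTheory Set Filter Topology
open scoped ENNReal symmDiff
open Pool.H359R3 Pool.H359R3.IX
open Pool.Agent.W744.NG Pool.Agent.W744.NG.Dens Pool.Agent.W744.NG.Theta

section
variable {X Y : Type} [MeasurableSpace X] [StandardBorelSpace X] [MeasurableSpace Y] [StandardBorelSpace Y]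
  {μ : Measure X} {ν : Measure Y} [IsProbabilityMeasure μ] [IsProbabilityMeasure ν]

/-- the coboundary of `Ψ` -/
def cob (T : AU μ) (Ψ : Coc X ν) : Coc X ν := mulC (shC T Ψ) (invC Ψ)

theorem cob_apply (T : AU μ) (Ψ : Coc X ν) (x : X) (y : Y) :
    ((cob T Ψ).1 x).1 y = (Ψ.1 (T.1 x)).1 ((Ψ.1 x).1.symm y) := rfl

/-- the fibre coordinate untwisted -/
def unt (Ψ : Coc X ν) (z : X × Y) : X × Y := (z.1, (Ψ.1 z.1).1.symm z.2)

theorem unt_mp (Ψ : Coc X ν) : MeasurePreserving (unt Ψ) (μ.prod ν) (μ.prod ν) := by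
  have h := sk_mp (μ := μ) (oneA : AU μ) (invC Ψ)
  exact h

theorem cob_iter (T : AU μ) (Ψ : Coc X ν) (m : ℕ) (z : X × Y) :
    (sk (T.1 : X → X) (cob T Ψ))^[m] z =
      ((T.1 : X → X)^[m] z.1, (Ψ.1 ((T.1 : X → X)^[m] z.1)).1 ((Ψ.1 z.1).1.symm z.2)) := by
  induction m with
  | zero =>
    rw [Function.iterate_zero, Function.iterate_zero]
    simp
  | succ m ih =>
    rw [Function.iterate_succ_apply', ih, Function.iterate_succ_apply']
    unfold sk
    simp [cob_apply]

theorem sk_iter_fst (T : AU μ) (Φ : Coc X ν) (m : ℕ) (z : X × Y) :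
    ((sk (T.1 : X → X) Φ)^[m] z).1 = (T.1 : X → X)^[m] z.1 := by
  induction m with
  | zero => rfl
  | succ m ih =>
    rw [Function.iterate_succ_apply', Function.iterate_succ_apply', ← ih]
    rfl

theorem sk_iter_fib (T : AU μ) (Φ : Coc X ν) (m : ℕ) (x : X) :
    ∃ e : AU ν, ∀ y, (sk (T.1 : X → X) Φ)^[m] (x, y) = ((T.1 : X → X)^[m] x, e.1 y) := by
  induction m with
  | zero => exact ⟨oneA, fun y => rfl⟩
  | succ m ih =>
    obtain ⟨e, he⟩ := ih
    refine ⟨mulA (Φ.1 ((T.1 : X → X)^[m] x)) e, fun y => ?_⟩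
    rw [Function.iterate_succ_apply', he, Function.iterate_succ_apply']
    rfl

/-- the untwisted fibre coordinate at time `n` -/
def om (T : AU μ) (Φ Ψ : Coc X ν) (n : ℕ) (z : X × Y) : Y := (unt Ψ ((sk (T.1 : X → X) Φ)^[n] z)).2

theorem om_meas (T : AU μ) (Φ Ψ : Coc X ν) (n : ℕ) : Measurable (om T Φ Ψ n) :=
  measurable_snd.comp ((unt_mp (μ := μ) Ψ).measurable.comp (sk_iter_mp T Φ n).measurable)

theorem om_fib (T : AU μ) (Φ Ψ : Coc X ν) (n : ℕ) (x : X) : ∃ e : AU ν, ∀ y, om T Φ Ψ n (x, y) = e.1 y := by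
  obtain ⟨e, he⟩ := sk_iter_fib T Φ n x
  refine ⟨mulA (invA (Ψ.1 ((T.1 : X → X)^[n] x))) e, fun y => ?_⟩
  unfold om
  rw [he]
  rfl

/-- comparison at a fixed shift -/
theorem est_shift (T : AU μ) (Φ Ψ : Coc X ν) {k : ℕ} (n : Fin (k + 1) → ℕ) (m : ℕ)
    (g : Fin (k + 1) → Y → ℝ) (hg : ∀ j, B1 (g j)) {C : Type} [Finite C] (c : X → C)
    (hc : ∀ v, MeasurableSet {x | c x = v}) (H : Fin (k + 1) → C → Y → ℝ) (hH : ∀ j v, B1 (H j v)) :
    N1 μ ν (fun z => ∏ j, g j (((sk (T.1 : X → X) Φ)^[n j] z).2)) ≤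
      N1 μ ν (fun z => ∏ j, H j (c ((T.1 : X → X)^[m + n j] z.1)) (om T Φ Ψ (n j) z)) +
      ∑ j, (∫ z, |g j (((sk (T.1 : X → X) Φ)^[m] z).2) - g j (((sk (T.1 : X → X) (cob T Ψ))^[m] z).2)| ∂(μ.prod ν) +
        ∫ z, |g j ((Ψ.1 z.1).1 z.2) - H j (c z.1) z.2| ∂(μ.prod ν)) := by
  set S : X × Y → X × Y := sk (T.1 : X → X) Φ with hS
  set S0 : X × Y → X × Y := sk (T.1 : X → X) (cob T Ψ) with hS0
  have hSmp : ∀ i, MeasurePreserving (S^[i]) (μ.prod ν) (μ.prod ν) := fun i => sk_iter_mp T Φ i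
  have hS0mp : ∀ i, MeasurePreserving (S0^[i]) (μ.prod ν) (μ.prod ν) := fun i => sk_iter_mp T _ i
  -- measurability of the step function
  have hHc : ∀ j, B1 (fun u : X × Y => H j (c u.1) u.2) := by
    intro j
    refine ⟨?_, fun u => (hH j _).bd _⟩
    intro B hB
    have h1 : (fun u : X × Y => H j (c u.1) u.2) ⁻¹' B =
        ⋃ v : C, ({u : X × Y | c u.1 = v} ∩ (fun u : X × Y => H j v u.2) ⁻¹' B) := by
      ext u
      simp
    rw [h1]
    refine MeasurableSet.iUnion fun v => ?_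
    exact (measurable_fst (hc v)).inter (((hH j v).meas.comp measurable_snd) hB)
  set q : Fin (k + 1) → X × Y → ℝ := fun j u => H j (c ((T.1 : X → X)^[m] u.1)) (unt Ψ u).2 with hq
  have hmap : MeasurePreserving (fun u : X × Y => ((T.1 : X → X)^[m] u.1, (unt Ψ u).2)) (μ.prod ν) (μ.prod ν) := by
    have h1 : MeasurePreserving (fun u : X × Y => ((T.1 : X → X)^[m] u.1, u.2)) (μ.prod ν) (μ.prod ν) :=
      (T.2.iterate m).prod (MeasurePreserving.id ν)
    exact h1.comp (unt_mp Ψ)
  have hqB : ∀ j, B1 (q j) := fun j => (hHc j).comp hmap.measurable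
  -- shift
  have e1 : N1 μ ν (fun z => ∏ j, g j ((S^[n j] z).2)) = N1 μ ν (fun z => ∏ j, g j ((S^[m] (S^[n j] z)).2)) := by
    rw [← N1_iter T Φ (fun z => ∏ j, g j ((S^[n j] z).2)) m]
    congr 1
    funext z
    refine Finset.prod_congr rfl fun j _ => ?_
    rw [← Function.iterate_add_apply, ← Function.iterate_add_apply, Nat.add_comm]
  rw [e1]
  refine (N1_prod (μ := μ) (ν := ν) Finset.univ (fun j z => g j ((S^[m] (S^[n j] z)).2)) (fun j z => q j (S^[n j] z))
    (fun j => (hg j).comp (measurable_snd.comp ((hSmp m).measurable.comp (hSmp (n j)).measurable)))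
    (fun j => (hqB j).comp (hSmp (n j)).measurable)).trans ?_
  have e2 : (fun z : X × Y => ∏ j, q j (S^[n j] z)) =
      fun z => ∏ j, H j (c ((T.1 : X → X)^[m + n j] z.1)) (om T Φ Ψ (n j) z) := by
    funext z
    refine Finset.prod_congr rfl fun j _ => ?_
    show H j (c ((T.1 : X → X)^[m] (S^[n j] z).1)) (unt Ψ (S^[n j] z)).2 = _
    rw [sk_iter_fst, ← Function.iterate_add_apply]
    rfl
  rw [e2]
  refine add_le_add le_rfl (Finset.sum_le_sum fun j _ => ?_)
  have e3 : ∫ z, |g j ((S^[m] (S^[n j] z)).2) - q j (S^[n j] z)| ∂(μ.prod ν) =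
      ∫ u, |g j ((S^[m] u).2) - q j u| ∂(μ.prod ν) := by
    have hm : Measurable (fun u : X × Y => |g j ((S^[m] u).2) - q j u|) :=
      (((hg j).meas.comp (measurable_snd.comp (hSmp m).measurable)).sub (hqB j).meas).abs
    exact int_comp_mp (hSmp (n j)) hm
  rw [e3]
  have e4 : ∫ u, |g j ((S0^[m] u).2) - q j u| ∂(μ.prod ν) =
      ∫ z, |g j ((Ψ.1 z.1).1 z.2) - H j (c z.1) z.2| ∂(μ.prod ν) := by
    have hm : Measurable (fun z : X × Y => |g j ((Ψ.1 z.1).1 z.2) - H j (c z.1) z.2|) :=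
      (((hg j).meas.comp Ψ.2).sub (hHc j).meas).abs
    rw [← int_comp_mp hmap hm]
    refine integral_congr_ae (Eventually.of_forall fun u => ?_)
    show |g j ((S0^[m] u).2) - q j u| = _
    rw [hS0, cob_iter]
    rfl
  rw [← e4]
  have i1 : B1 (fun u : X × Y => g j ((S^[m] u).2)) := (hg j).comp (measurable_snd.comp (hSmp m).measurable)
  have i2 : B1 (fun u : X × Y => g j ((S0^[m] u).2)) := (hg j).comp (measurable_snd.comp (hS0mp m).measurable)
  rw [← integral_add (i1.sub_intble i2) (i2.sub_intble (hqB j))]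
  refine integral_mono (i1.sub_intble (hqB j)) ((i1.sub_intble i2).add (i2.sub_intble (hqB j))) fun u => ?_
  exact abs_sub_le _ _ _

/-- the averaged estimate -/
theorem est_avg (T : AU μ) (Φ Ψ : Coc X ν) {k : ℕ} (n : Fin (k + 1) → ℕ) (L D : ℕ) (hL : 0 < L)
    (g : Fin (k + 1) → Y → ℝ) (hg : ∀ j, B1 (g j)) {C ι : Type} [Fintype C] [DecidableEq C] [DecidableEq ι]
    (c : X → C) (hc : ∀ v, MeasurableSet {x | c x = v}) (H : Fin (k + 1) → C → Y → ℝ) (hH : ∀ j v, B1 (H j v))
    (η1 η2 : ℝ)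
    (h1 : ∀ j, ∫ z, |g j ((Ψ.1 z.1).1 z.2) - H j (c z.1) z.2| ∂(μ.prod ν) ≤ η1)
    (h2 : ∀ j, ∀ s < L, ∫ z, |g j (((sk (T.1 : X → X) Φ)^[s * D] z).2) -
      g j (((sk (T.1 : X → X) (cob T Ψ))^[s * D] z).2)| ∂(μ.prod ν) ≤ η2)
    (η3 : ℝ) (h3 : ∀ w : Fin (k + 1) → C,
      ∫ x, |emp (T.1 : X → X) c L D n w x - ∏ j, μ.real {x | c x = w j}| ∂μ ≤ η3)
    (i : C → ι) (β : ℝ) (hβ : ∀ v, ∑ v', (if i v = i v' then μ.real {x | c x = v'} else 0) ≤ β)
    (l : Fin (k + 1)) (hor : ∀ v v', i v ≠ i v' → ∫ y, H l v y * H l v' y ∂ν = 0) (κ : ℝ) (hκ : 0 < κ) :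
    N1 μ ν (fun z => ∏ j, g j (((sk (T.1 : X → X) Φ)^[n j] z).2)) ≤
      (k + 1) * (η1 + η2) + (Fintype.card C : ℝ) ^ (k + 1) * η3 + (κ + β / κ) := by
  have hLr : (0 : ℝ) < L := by exact_mod_cast hL
  set A : (Fin (k + 1) → C) → X → ℝ := fun w x => |∫ y, ∏ j, H j (w j) (om T Φ Ψ (n j) (x, y)) ∂ν| with hA
  have hAB : ∀ w : Fin (k + 1) → C, B1 (fun z : X × Y => ∏ j, H j (w j) (om T Φ Ψ (n j) z)) := fun w =>
    B1.prod _ fun j => (hH j (w j)).comp (om_meas T Φ Ψ (n j))
  have hAm : ∀ w, Measurable (A w) := fun w => (fib_meas (ν := ν) (hAB w).meas).abs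
  have hA0 : ∀ w x, 0 ≤ A w x := fun w x => abs_nonneg _
  have hA1 : ∀ w x, A w x ≤ 1 := fun w x => abs_int_le fun y => (hAB w).bd (x, y)
  have hAi : ∀ w, Integrable (A w) μ := fun w => fib_abs_intble (hAB w)
  -- each shift
  have hs : ∀ s < L, N1 μ ν (fun z => ∏ j, g j (((sk (T.1 : X → X) Φ)^[n j] z).2)) ≤
      ∫ x, A (fun j => c ((T.1 : X → X)^[s * D + n j] x)) x ∂μ + (k + 1) * (η1 + η2) := by
    intro s hs
    refine (est_shift T Φ Ψ n (s * D) g hg c hc H hH).trans (add_le_add le_rfl ?_)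
    have : ∑ j : Fin (k + 1), (η1 + η2) = (k + 1) * (η1 + η2) := by
      rw [Finset.sum_const, Finset.card_univ, Fintype.card_fin, nsmul_eq_mul]
      push_cast
      ring
    rw [← this]
    refine Finset.sum_le_sum fun j _ => ?_
    have e1 := h1 j
    have e2 := h2 j s hs
    linarith
  -- integrability of the shifted function
  have hem : ∀ w, Measurable (emp (T.1 : X → X) c L D n w) := fun w =>
    emp_meas T.1.measurable c hc L D n w
  have hsi : ∀ s, Integrable (fun x => A (fun j => c ((T.1 : X → X)^[s * D + n j] x)) x) μ := by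
    intro s
    refine Integrable.of_bound ?_ 1 (Eventually.of_forall fun x => ?_)
    · apply Measurable.aestronglyMeasurable
      intro B hB
      have e1 : (fun x => A (fun j => c ((T.1 : X → X)^[s * D + n j] x)) x) ⁻¹' B =
          ⋃ w : Fin (k + 1) → C, ((⋂ j, (T.1 : X → X)^[s * D + n j] ⁻¹' {x | c x = w j}) ∩ A w ⁻¹' B) := by
        ext x
        simp only [mem_preimage, mem_iUnion, mem_inter_iff, mem_iInter, mem_ofPred_eq]
        constructor
        · intro h
          exact ⟨_, fun j => rfl, h⟩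
        · rintro ⟨w, hw, h⟩
          have : (fun j => c ((T.1 : X → X)^[s * D + n j] x)) = w := funext hw
          rw [this]
          exact h
      rw [e1]
      refine MeasurableSet.iUnion fun w => MeasurableSet.inter (MeasurableSet.iInter fun j => ?_) (hAm w hB)
      exact (T.1.measurable.iterate _) (hc _)
    · rw [Real.norm_eq_abs, abs_of_nonneg (hA0 _ _)]
      exact hA1 _ _
  have havg : N1 μ ν (fun z => ∏ j, g j (((sk (T.1 : X → X) Φ)^[n j] z).2)) ≤
      ∫ x, ∑ w, emp (T.1 : X → X) c L D n w x * A w x ∂μ + (k + 1) * (η1 + η2) := by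
    have e1 : ∑ s ∈ Finset.range L, N1 μ ν (fun z => ∏ j, g j (((sk (T.1 : X → X) Φ)^[n j] z).2)) ≤
        ∑ s ∈ Finset.range L, (∫ x, A (fun j => c ((T.1 : X → X)^[s * D + n j] x)) x ∂μ + (k + 1) * (η1 + η2)) :=
      Finset.sum_le_sum fun s hs' => hs s (Finset.mem_range.1 hs')
    rw [Finset.sum_const, Finset.card_range, nsmul_eq_mul, Finset.sum_add_distrib, Finset.sum_const,
      Finset.card_range, nsmul_eq_mul, ← integral_finsetSum _ fun s _ => hsi s] at e1
    have e2 : ∫ x, ∑ w, emp (T.1 : X → X) c L D n w x * A w x ∂μ =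
        (∫ x, ∑ s ∈ Finset.range L, A (fun j => c ((T.1 : X → X)^[s * D + n j] x)) x ∂μ) / L := by
      rw [← integral_div]
      refine integral_congr_ae (Eventually.of_forall fun x => ?_)
      exact (emp_avg c L D n (fun w => A w x) x).symm
    rw [e2]
    rw [div_add' _ _ _ hLr.ne', le_div_iff₀ hLr]
    linarith
  -- the frequencies are nearly products
  have hsplit : ∫ x, ∑ w, emp (T.1 : X → X) c L D n w x * A w x ∂μ ≤
      (Fintype.card C : ℝ) ^ (k + 1) * η3 + (κ + β / κ) := by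
    set p : C → ℝ := fun v => μ.real {x | c x = v} with hp
    have hp0 : ∀ v, 0 ≤ p v := fun v => measureReal_nonneg
    have hp1 : ∑ v, p v = 1 := by
      have e0 : ∑ v, p v = μ.real (⋃ v ∈ (Finset.univ : Finset C), {x | c x = v}) := by
        rw [measureReal_biUnion_finset]
        · intro v _ v' _ hvv
          rw [Function.onFun, Set.disjoint_left]
          intro x h2 h3
          exact hvv (h2.symm.trans h3)
        · exact fun v _ => hc v
      rw [e0]
      have e1 : (⋃ v ∈ (Finset.univ : Finset C), {x | c x = v}) = univ := by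
        ext x
        simp
      rw [e1]
      simp
    have hPle : ∀ w : Fin (k + 1) → C, ∏ j, p (w j) ≤ 1 := fun w =>
      Finset.prod_le_one (fun j _ => hp0 _) fun j _ => measureReal_le_one
    have hei : ∀ w, Integrable (fun x => |emp (T.1 : X → X) c L D n w x - ∏ j, p (w j)|) μ := by
      intro w
      refine Integrable.of_bound ((hem w).sub_const _).abs.aestronglyMeasurable 1 (Eventually.of_forall fun x => ?_)
      have e1 := emp_nonneg (S := (T.1 : X → X)) c L D n w x
      have e2 := emp_le (S := (T.1 : X → X)) c L D n w x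
      have e3 : 0 ≤ ∏ j, p (w j) := Finset.prod_nonneg fun j _ => hp0 _
      have e4 := hPle w
      rw [Real.norm_eq_abs, abs_abs, abs_le]
      constructor <;> linarith
    have e1 : ∫ x, ∑ w, emp (T.1 : X → X) c L D n w x * A w x ∂μ ≤
        ∫ x, (∑ w, |emp (T.1 : X → X) c L D n w x - ∏ j, p (w j)| + (κ + β / κ)) ∂μ := by
      refine integral_mono_of_nonneg (Eventually.of_forall fun x => ?_)
        ((integrable_finsetSum _ fun w _ => hei w).add (integrable_const _)) (Eventually.of_forall fun x => ?_)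
      · exact Finset.sum_nonneg fun w _ => mul_nonneg (emp_nonneg _ _ _ _ _ _) (hA0 w x)
      · show ∑ w, emp (T.1 : X → X) c L D n w x * A w x ≤
          ∑ w, |emp (T.1 : X → X) c L D n w x - ∏ j, p (w j)| + (κ + β / κ)
        have e2 : ∑ w, emp (T.1 : X → X) c L D n w x * A w x =
            ∑ w, (emp (T.1 : X → X) c L D n w x - ∏ j, p (w j)) * A w x + ∑ w, (∏ j, p (w j)) * A w x := by
          rw [← Finset.sum_add_distrib]
          exact Finset.sum_congr rfl fun w _ => by ring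
        rw [e2]
        refine add_le_add (Finset.sum_le_sum fun w _ => ?_) ?_
        · refine (le_abs_self _).trans ?_
          rw [abs_mul, abs_of_nonneg (hA0 w x)]
          exact mul_le_of_le_one_right (abs_nonneg _) (hA1 w x)
        · -- the orthogonal family
          choose e he using fun j : Fin (k + 1) => om_fib T Φ Ψ (n j) x
          have e3 := bessel_prod (ν := ν) (fun j v y => H j v (om T Φ Ψ (n j) (x, y)))
            (fun j v => (hH j v).comp ((om_meas T Φ Ψ (n j)).comp measurable_prodMk_left)) p hp0 hp1 i β hβ l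
            (fun v v' hvv => by
              have e4 : (fun y => H l v (om T Φ Ψ (n l) (x, y)) * H l v' (om T Φ Ψ (n l) (x, y))) =
                  fun y => (fun u => H l v u * H l v' u) ((e l).1 y) := by
                funext y
                rw [he l y]
              rw [e4, (e l).2.integral_comp' (g := fun u => H l v u * H l v' u)]
              exact hor v v' hvv) κ hκ
          exact e3
    refine e1.trans ?_
    rw [integral_add (integrable_finsetSum _ fun w _ => hei w) (integrable_const _),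
      integral_finsetSum _ fun w _ => hei w, integral_const]
    simp only [probReal_univ, one_smul]
    refine add_le_add ?_ le_rfl
    refine (Finset.sum_le_sum fun w _ => h3 w).trans (le_of_eq ?_)
    rw [Finset.sum_const, Finset.card_univ, Fintype.card_fun, Fintype.card_fin, nsmul_eq_mul]
    push_cast
    ring
  linarith

end

end Pool.Agent.V7H90.MM
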