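import Mathlib
import Pool.Agent.V7H90.MM.Lab

set_option autoImplicit false
set_option linter.unusedSectionVars false
set_option linter.unusedVariables false

/-!
Time and place of the last visit to a small set.
-/

namespace Pool.Agent.V7H90.MM

open MeasureTheory Set Filter Topology
open scoped ENNReal symmDiff
open Pool.H359R3 Pool.H359R3.IX
open Pool.Agent.W744.NG

theorem exists_tower {X : Type} [MeasurableSpace X] [StandardBorelSpace X] (μ : Measure X)
    [IsProbabilityMeasure μ] [NullSingletonClass μ] (T : AU μ)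
    (hmix : ∀ A B : Set X, MeasurableSet A → MeasurableSet B →
      Tendsto (fun n : ℕ => μ.real (A ∩ (T.1 : X → X)^[n] ⁻¹' B)) atTop (𝓝 (μ.real A * μ.real B)))
    (δ : ℝ) (hδ : 0 < δ) :
    ∃ (τ : X → ℕ) (ρ : X → X) (E : Set X), Measurable τ ∧ Measurable ρ ∧ MeasurableSet E ∧ μ.real E < δ ∧
      NullSingletonClass (μ.map ρ) ∧ ∀ x, x ∉ E → τ (T.1 x) = τ x + 1 ∧ ρ (T.1 x) = ρ x := by
  classical
  obtain ⟨D⟩ := exists_LS μ
  obtain ⟨r, hr⟩ := exists_pow_lt_of_lt_one hδ (show (1 / 2 : ℝ) < 1 by norm_num)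
  have hr' : (1 : ℝ) / 2 ^ r < δ := by
    rw [one_div_pow] at hr
    exact hr
  set B : Set X := {x | D.L r x = 0} with hB
  have hBm : MeasurableSet B := D.meas r (measurableSet_singleton _)
  have hBr : μ.real B = 1 / 2 ^ r := D.unif r 0
  set S : X → X := fun x => T.1.symm x with hS
  have hSm : Measurable S := T.1.symm.measurable
  have hSmp : MeasurePreserving S μ μ := T.2.symm T.1
  have hST : ∀ x, S (T.1 x) = x := fun x => T.1.symm_apply_apply x
  have hSTn : ∀ n x, S^[n] ((T.1 : X → X)^[n] x) = x := by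
    intro n
    induction n with
    | zero => intro x; rfl
    | succ n ih =>
      intro x
      rw [Function.iterate_succ_apply, Function.iterate_succ_apply', hST, ih]
  set R : Set X := {x | ∃ n, S^[n] x ∈ B} with hR
  have hRm : MeasurableSet R := by
    have : R = ⋃ n, S^[n] ⁻¹' B := by
      ext x
      simp [hR]
    rw [this]
    exact MeasurableSet.iUnion fun n => (hSm.iterate n) hBm
  have hR0 : μ.real Rᶜ = 0 := by
    have h1 := hmix B Rᶜ hBm hRm.compl
    have h2 : ∀ n : ℕ, B ∩ (T.1 : X → X)^[n] ⁻¹' Rᶜ = ∅ := by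
      intro n
      apply Set.eq_empty_of_forall_notMem
      rintro x ⟨hx1, hx2⟩
      apply hx2
      refine ⟨n, ?_⟩
      rw [hSTn]
      exact hx1
    simp only [h2, measureReal_empty] at h1
    have h3 := tendsto_nhds_unique h1 tendsto_const_nhds
    rw [hBr] at h3
    have h4 : (0 : ℝ) < 1 / 2 ^ r := by positivity
    rcases mul_eq_zero.1 h3 with h | h
    · exact absurd h h4.ne'
    · exact h
  let p : X → ℕ → Prop := fun x n => S^[n] x ∈ B ∨ x ∉ R
  have hp : ∀ x, ∃ n, p x n := by
    intro x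
    by_cases hx : x ∈ R
    · obtain ⟨n, hn⟩ := hx
      exact ⟨n, Or.inl hn⟩
    · exact ⟨0, Or.inr hx⟩
  set τ : X → ℕ := fun x => Nat.find (hp x) with hτ
  have hτm : Measurable τ := by
    apply measurable_find hp
    intro k
    exact ((hSm.iterate k) hBm).union hRm.compl
  set ρ : X → X := fun x => S^[τ x] x with hρ
  have hρm : Measurable ρ := by
    intro A hA
    have h1 : ρ ⁻¹' A = ⋃ k : ℕ, ({x | τ x = k} ∩ S^[k] ⁻¹' A) := by
      ext x
      simp [hρ]
    rw [h1]
    exact MeasurableSet.iUnion fun k => (hτm (measurableSet_singleton k)).inter ((hSm.iterate k) hA)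
  refine ⟨τ, ρ, (T.1 : X → X) ⁻¹' (B ∪ Rᶜ), hτm, hρm, T.1.measurable (hBm.union hRm.compl), ?_, ?_, ?_⟩
  · have h1 : μ.real ((T.1 : X → X) ⁻¹' (B ∪ Rᶜ)) = μ.real (B ∪ Rᶜ) := by
      rw [measureReal_def, T.2.measure_preimage (hBm.union hRm.compl).nullMeasurableSet, ← measureReal_def]
    rw [h1]
    have h2 := measureReal_union_le (μ := μ) B Rᶜ
    linarith
  · refine ⟨fun a => ?_⟩
    rw [Measure.map_apply hρm (measurableSet_singleton a)]
    have h1 : ρ ⁻¹' {a} ⊆ ⋃ k : ℕ, S^[k] ⁻¹' {a} := by
      intro x hx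
      rw [mem_iUnion]
      exact ⟨τ x, hx⟩
    refine measure_mono_null h1 ?_
    rw [measure_iUnion_null_iff]
    intro k
    rw [(hSmp.iterate k).measure_preimage (measurableSet_singleton a).nullMeasurableSet]
    exact measure_singleton a
  · intro x hx
    rw [mem_preimage, mem_union, not_or] at hx
    have hxR : T.1 x ∈ R := by
      by_contra h
      exact hx.2 h
    obtain ⟨n, hn⟩ := hxR
    have hn0 : n ≠ 0 := by
      rintro rfl
      exact hx.1 hn
    obtain ⟨k, rfl⟩ := Nat.exists_eq_succ_of_ne_zero hn0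
    have hk : S^[k] x ∈ B := by
      have : S^[k.succ] (T.1 x) = S^[k] x := by
        rw [Function.iterate_succ_apply, hST]
      rw [← this]
      exact hn
    have hxR2 : x ∈ R := ⟨k, hk⟩
    have h1 : τ (T.1 x) = τ x + 1 := by
      have e1 : ∃ n, p (T.1 x) (n + 1) := ⟨k, Or.inl hn⟩
      have e0 : ¬ p (T.1 x) 0 := by
        rintro (h | h)
        · exact hx.1 h
        · exact h ⟨k.succ, hn⟩
      show Nat.find (hp (T.1 x)) = Nat.find (hp x) + 1
      rw [Nat.find_comp_succ (hp (T.1 x)) e1 e0]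
      congr 1
      apply Nat.find_congr'
      intro j
      constructor
      · rintro (h | h)
        · left
          rw [Function.iterate_succ_apply, hST] at h
          exact h
        · exact absurd ⟨k.succ, hn⟩ h
      · rintro (h | h)
        · left
          rw [Function.iterate_succ_apply, hST]
          exact h
        · exact absurd hxR2 h
    refine ⟨h1, ?_⟩
    show S^[τ (T.1 x)] (T.1 x) = S^[τ x] x
    rw [h1, Function.iterate_succ_apply, hST]

end Pool.Agent.V7H90.MM
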