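import Mathlib
import Pool.Agent.V7H90.MM.Est
import Pool.Agent.V7H90.MM.Apx
import Pool.Agent.V7H90.MM.Tw
import Pool.Agent.W744.NG.Open
import Pool.Agent.W744.NG.Final
import Pool.Agent.W744.NG.Ind
import Pool.Agent.W744.NG.Koop

set_option autoImplicit false
set_option linter.unusedSectionVars false
set_option linter.unusedVariables false

/-!
A residual set of cocycles with small fibre integrals.
-/

namespace Pool.Agent.V7H90.MM

open MeasureTheory Set Filter Topology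
open scoped ENNReal symmDiff
open Pool.H359R3 Pool.H359R3.IX
open Pool.Agent.W744.NG Pool.Agent.W744.NG.Dens Pool.Agent.W744.NG.Theta

theorem LS.copies' {Z : Type} [MeasurableSpace Z] {m : Measure Z} [IsProbabilityMeasure m]
    (D : LS m) (r q : ℕ) : ∃ h : Fin (2 ^ q) → AU m, ∀ F F' : Fin (2 ^ r) → ℝ, ∑ v, F v = 0 →
    ∀ i i', i ≠ i' → ∫ z, F (D.L r ((h i).1 z)) * F' (D.L r ((h i').1 z)) ∂m = 0 := by
  obtain ⟨I, hI⟩ := Nat.exists_eq_succ_of_ne_zero (show (2 : ℕ) ^ q ≠ 0 by positivity)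
  rw [hI]
  exact D.copies r I

section
variable {X Y : Type} [MeasurableSpace X] [StandardBorelSpace X] [MeasurableSpace Y] [StandardBorelSpace Y]
  {μ : Measure X} {ν : Measure Y} [IsProbabilityMeasure μ] [IsProbabilityMeasure ν]

/-- a cocycle given by finitely many automorphisms -/
def finC {ι : Type} [Finite ι] (h : ι → AU ν) (i : X → ι) (hi : ∀ v, MeasurableSet {x | i x = v}) : Coc X ν :=
  ⟨fun x => h (i x), by
    intro B hB
    have h1 : (fun z : X × Y => (h (i z.1)).1 z.2) ⁻¹' B =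
        ⋃ v : ι, ({z : X × Y | i z.1 = v} ∩ (fun z : X × Y => (h v).1 z.2) ⁻¹' B) := by
      ext z
      simp
    rw [h1]
    refine MeasurableSet.iUnion fun v => ?_
    exact (measurable_fst (hi v)).inter (((h v).1.measurable.comp measurable_snd) hB)⟩

variable [NullSingletonClass μ] [NullSingletonClass ν]

theorem good_cocycle (T : AU μ) (Φ : Coc X ν) (k : ℕ) (h2 : MixOrd μ T.1 1) (hk : MixOrd μ T.1 k)
    (δ : ℝ) (hδ : 0 < δ) (g : Fin (k + 1) → Y → ℝ) (hg : ∀ j, B1 (g j)) (l : Fin (k + 1))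
    (hl : ∫ y, g l y ∂ν = 0) (ε : ℝ) (hε : 0 < ε) :
    ∃ (α : Coc X ν) (E : Set X), MeasurableSet E ∧ μ.real E < δ ∧ (∀ x, x ∉ E → α.1 x = Φ.1 x) ∧
      ∃ (η : ℝ) (M N : ℕ), 0 < η ∧ ∀ Φ' : Coc X ν,
        (∀ j, ∀ s < M, ∫ z, |g j (((sk (T.1 : X → X) Φ')^[s] z).2) -
          g j (((sk (T.1 : X → X) α)^[s] z).2)| ∂(μ.prod ν) ≤ η) →
        ∀ n, Gap k N n → N1 μ ν (fun z => ∏ j, g j (((sk (T.1 : X → X) Φ')^[n j] z).2)) < ε := by
  classical
  have hmix : ∀ A B : Set X, MeasurableSet A → MeasurableSet B →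
      Tendsto (fun n : ℕ => μ.real (A ∩ (T.1 : X → X)^[n] ⁻¹' B)) atTop (𝓝 (μ.real A * μ.real B)) := by
    intro A B hA hB
    rw [Metric.tendsto_atTop]
    intro a ha
    obtain ⟨N, hN⟩ := eventually_atTop.1 (mix_two h2 A B hA hB a ha)
    exact ⟨N, fun n hn => by rw [Real.dist_eq]; exact hN n hn⟩
  obtain ⟨τ, ρ, E, hτ, hρ, hE, hE2, hna, hTE⟩ := exists_tower μ T hmix δ hδ
  obtain ⟨θ, hθ⟩ := Theta.theta X Y μ ν T Φ τ hτ
  obtain ⟨DX⟩ := exists_LS μ
  obtain ⟨DY⟩ := exists_LS ν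
  have hprob : IsProbabilityMeasure (μ.map ρ) := Measure.isProbabilityMeasure_map hρ.aemeasurable
  obtain ⟨DR⟩ := exists_LS (μ.map ρ)
  -- number of copies
  obtain ⟨q, hq⟩ := exists_pow_lt_of_lt_one (show 0 < (ε / 8) ^ 2 by positivity) (show (1 / 2 : ℝ) < 1 by norm_num)
  have hβ : (1 / 2 ^ q : ℝ) / (ε / 8) < ε / 8 := by
    rw [div_lt_iff₀ (by positivity), ← sq]
    rw [one_div_pow] at hq
    exact hq
  -- approximation
  have hk1 : (0 : ℝ) < (k : ℝ) + 1 := by positivity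
  have hap := fun j => Apx.exists_apx DX DY (fun z => g j ((θ.1 z.1).1 z.2)) ((hg j).comp θ.2)
    (ε / (8 * ((k : ℝ) + 1))) (by positivity)
  choose r0 hr0 using hap
  set r : ℕ := Finset.univ.sup r0 with hr
  choose F hF1 hF0 hF using fun j => hr0 j r (Finset.le_sup (Finset.mem_univ j))
  obtain ⟨h, hh⟩ := DY.copies' r q
  set ix : X → Fin (2 ^ q) := fun x => DR.L q (ρ x) with hix
  have hixm : ∀ v, MeasurableSet {x | ix x = v} := fun v => hρ (DR.meas q (measurableSet_singleton v))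
  have hixr : ∀ v, μ.real {x | ix x = v} = 1 / 2 ^ q := by
    intro v
    have e0 : MeasurableSet {z | DR.L q z = v} := DR.meas q (measurableSet_singleton v)
    rw [← DR.unif q v, map_measureReal_apply hρ e0]
    rfl
  set Hc : Coc X ν := finC h ix hixm with hHc
  set Ψ : Coc X ν := mulC θ Hc with hΨ
  set c : X → Fin (2 ^ r) × Fin (2 ^ q) := fun x => (DX.L r x, ix x) with hc
  have hcm : ∀ v, MeasurableSet {x | c x = v} := by
    intro v
    have : {x | c x = v} = {x | DX.L r x = v.1} ∩ {x | ix x = v.2} := by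
      ext x
      simp [hc, Prod.ext_iff]
    rw [this]
    exact (DX.meas r (measurableSet_singleton _)).inter (hixm _)
  set H : Fin (k + 1) → (Fin (2 ^ r) × Fin (2 ^ q)) → Y → ℝ := fun j v y => F j v.1 (DY.L r ((h v.2).1 y)) with hH
  have hHB : ∀ j v, B1 (H j v) := by
    intro j v
    refine ⟨?_, fun y => hF1 j _ _⟩
    exact (measurable_of_countable (F j v.1)).comp ((DY.meas r).comp (h v.2).1.measurable)
  -- the other constants
  set M : ℝ := (Fintype.card (Fin (2 ^ r) × Fin (2 ^ q)) : ℝ) ^ (k + 1) with hM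
  have hM0 : 0 < M := by
    rw [hM]
    simp only [Fintype.card_prod, Fintype.card_fin]
    positivity
  set κ1 : ℝ := ε / (8 * M) with hκ1
  have hκ1p : 0 < κ1 := by positivity
  obtain ⟨L, hL⟩ := exists_nat_gt (8 * M / (κ1 * ε))
  have hL0 : 0 < L := by
    have : (0 : ℝ) < L := lt_trans (by positivity) hL
    exact_mod_cast this
  have hLr : (0 : ℝ) < L := by exact_mod_cast hL0
  set η : ℝ := ε * κ1 / (32 * M) with hη
  have hηp : 0 < η := by positivity
  obtain ⟨D, hD⟩ := emp_l1 T.2 k h2 hk c hcm L hL0 η κ1 hηp hκ1p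
  obtain ⟨N, hN⟩ := eventually_atTop.1 hD
  have hη3 : M * (κ1 + (1 / L + 4 * η) / κ1) ≤ 3 * (ε / 8) := by
    have e1 : M * κ1 = ε / 8 := by
      rw [hκ1]
      field_simp
    have e2 : M * (1 / L / κ1) ≤ ε / 8 := by
      have e0 : 8 * M < L * (κ1 * ε) := by
        rw [div_lt_iff₀ (by positivity)] at hL
        linarith
      have e3 : M * (1 / L / κ1) = M / (L * κ1) := by
        field_simp
      rw [e3, div_le_iff₀ (by positivity)]
      nlinarith
    have e3 : M * (4 * η / κ1) = ε / 8 := by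
      rw [hη]
      field_simp
      norm_num
    have e4 : M * (κ1 + (1 / L + 4 * η) / κ1) = M * κ1 + M * (1 / L / κ1) + M * (4 * η / κ1) := by
      rw [add_div]
      ring
    linarith
  refine ⟨cob T Ψ, E, hE, hE2, ?_, ε / (8 * ((k : ℝ) + 1)), L * D + 1, N, by positivity, ?_⟩
  · intro x hx
    obtain ⟨ht, hρx⟩ := hTE x hx
    have e1 : ix (T.1 x) = ix x := by
      simp only [hix, hρx]
    apply Subtype.ext
    apply MeasurableEquiv.ext
    funext y
    rw [cob_apply]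
    have e2 : ∀ w, (Ψ.1 (T.1 x)).1 w = (Φ.1 x).1 ((Ψ.1 x).1 w) := by
      intro w
      show (θ.1 (T.1 x)).1 ((h (ix (T.1 x))).1 w) = (Φ.1 x).1 ((θ.1 x).1 ((h (ix x)).1 w))
      rw [e1, hθ x ht]
    rw [e2, MeasurableEquiv.apply_symm_apply]
  · intro Φ' hΦ' n hn
    have hest := est_avg T Φ' Ψ n L D hL0 g hg c hcm H hHB (ε / (8 * ((k : ℝ) + 1))) (ε / (8 * ((k : ℝ) + 1)))
      (by
        intro j
        have hm : Measurable (fun u : X × Y => |g j ((θ.1 u.1).1 u.2) - F j (DX.L r u.1) (DY.L r u.2)|) := by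
          refine (((hg j).comp θ.2).meas.sub ?_).abs
          have : Measurable (fun u : X × Y => (DX.L r u.1, DY.L r u.2)) :=
            ((DX.meas r).comp measurable_fst).prodMk ((DY.meas r).comp measurable_snd)
          exact (measurable_of_countable (fun u : Fin (2 ^ r) × Fin (2 ^ r) => F j u.1 u.2)).comp this
        have e1 := int_comp_mp (sk_mp (μ := μ) (oneA : AU μ) Hc) hm
        refine le_trans (le_of_eq ?_) (hF j).le
        rw [← e1]
        rfl)
      (by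
        intro j s hs
        refine hΦ' j (s * D) ?_
        have : s * D ≤ L * D := Nat.mul_le_mul_right D hs.le
        omega)
      (κ1 + (1 / L + 4 * η) / κ1) (hN N le_rfl n hn) Prod.snd (1 / 2 ^ q)
      (by
        intro v
        rw [Fintype.sum_prod_type]
        simp only [Finset.sum_ite_eq, Finset.mem_univ, if_true]
        have e1 : ∑ a : Fin (2 ^ r), μ.real {x | c x = (a, v.2)} =
            μ.real (⋃ a ∈ (Finset.univ : Finset (Fin (2 ^ r))), {x | c x = (a, v.2)}) := by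
          rw [measureReal_biUnion_finset]
          · intro a _ a' _ haa
            rw [Function.onFun, Set.disjoint_left]
            intro x e2 e3
            have e4 : (a, v.2) = (a', v.2) := (show c x = (a, v.2) from e2).symm.trans e3
            exact haa (congrArg Prod.fst e4)
          · exact fun a _ => hcm _
        have e2 : (⋃ a ∈ (Finset.univ : Finset (Fin (2 ^ r))), {x | c x = (a, v.2)}) = {x | ix x = v.2} := by
          ext x
          simp [hc, Prod.ext_iff]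
        rw [e1, e2, hixr])
      l
      (by
        intro v v' hvv
        refine hh (F l v.1) (F l v'.1) (hF0 l (fun x => ?_) v.1) v.2 v'.2 hvv
        rw [(θ.1 x).2.integral_comp' (g := g l)]
        exact hl)
      (ε / 8) (by positivity)
    refine lt_of_le_of_lt hest ?_
    have e1 : ((k : ℝ) + 1) * (ε / (8 * ((k : ℝ) + 1)) + ε / (8 * ((k : ℝ) + 1))) = ε / 4 := by
      field_simp
      norm_num
    rw [e1]
    have e2 : (Fintype.card (Fin (2 ^ r) × Fin (2 ^ q)) : ℝ) ^ (k + 1) * (κ1 + (1 / L + 4 * η) / κ1) ≤ 3 * (ε / 8) := hη3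
    linarith

omit [NullSingletonClass μ] [NullSingletonClass ν] in
/-- neighbourhoods -/
theorem near_nhds (T : AU μ) (α : Coc X ν) {k : ℕ} (g : Fin (k + 1) → Y → ℝ) (hg : ∀ j, B1 (g j)) (M : ℕ)
    (η : ℝ) (hη : 0 < η) : {Φ : Coc X ν | ∀ j, ∀ s < M, ∫ z, |g j (((sk (T.1 : X → X) Φ)^[s] z).2) -
      g j (((sk (T.1 : X → X) α)^[s] z).2)| ∂(μ.prod ν) ≤ η} ∈ @nhds (Coc X ν) (tC μ ν) α := by
  let _ : TopologicalSpace (Coc X ν) := tC μ ν
  have hcont : ∀ j : Fin (k + 1), ∀ s : ℕ, ∀ᶠ Φ in 𝓝 α, ∫ z, |g j (((sk (T.1 : X → X) Φ)^[s] z).2) -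
      g j (((sk (T.1 : X → X) α)^[s] z).2)| ∂(μ.prod ν) ≤ η := by
    intro j s
    have hL : MemLp (fun z : X × Y => ((g j z.2 : ℝ) : ℂ)) 2 (μ.prod ν) := by
      refine MemLp.of_bound (Complex.measurable_ofReal.comp ((hg j).meas.comp measurable_snd)).aestronglyMeasurable 1
        (Eventually.of_forall fun z => ?_)
      rw [Complex.norm_real]
      exact (hg j).bd _
    have h1 := Open.V_cont (μ := μ) (ν := ν) Ind.main Koop.main T (hL.toLp _) s
    have h2 : ∀ᶠ Φ in 𝓝 α, ‖Open.V T (hL.toLp _) s Φ - Open.V T (hL.toLp _) s α‖ < η := by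
      have h3 : Continuous (fun Φ => ‖Open.V T (hL.toLp _) s Φ - Open.V T (hL.toLp _) s α‖) :=
        (h1.sub continuous_const).norm
      have h4 := h3.tendsto α
      simp only [sub_self, norm_zero] at h4
      exact (tendsto_order.1 h4).2 η hη
    filter_upwards [h2] with Φ hΦ
    have e1 : Measurable (fun z : X × Y => g j (((sk (T.1 : X → X) Φ)^[s] z).2) -
        g j (((sk (T.1 : X → X) α)^[s] z).2)) :=
      ((hg j).meas.comp (measurable_snd.comp (sk_iter_mp T Φ s).measurable)).sub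
        ((hg j).meas.comp (measurable_snd.comp (sk_iter_mp T α s).measurable))
    have e2 : ∫ z, |g j (((sk (T.1 : X → X) Φ)^[s] z).2) - g j (((sk (T.1 : X → X) α)^[s] z).2)| ∂(μ.prod ν) =
        (eLpNorm (fun z : X × Y => g j (((sk (T.1 : X → X) Φ)^[s] z).2) -
          g j (((sk (T.1 : X → X) α)^[s] z).2)) 1 (μ.prod ν)).toReal := by
      rw [eLpNorm_one_eq_lintegral_enorm, ← integral_norm_eq_lintegral_enorm e1.aestronglyMeasurable]
      rfl
    have e3 : eLpNorm (fun z : X × Y => g j (((sk (T.1 : X → X) Φ)^[s] z).2) -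
          g j (((sk (T.1 : X → X) α)^[s] z).2)) 2 (μ.prod ν) =
        eLpNorm (⇑(Open.V T (hL.toLp _) s Φ - Open.V T (hL.toLp _) s α)) 2 (μ.prod ν) := by
      refine eLpNorm_congr_norm_ae ?_
      filter_upwards [Lp.coeFn_sub (Open.V T (hL.toLp _) s Φ) (Open.V T (hL.toLp _) s α),
        Open.V_ae T (fun y => ((g j y : ℝ) : ℂ)) hL s Φ, Open.V_ae T (fun y => ((g j y : ℝ) : ℂ)) hL s α]
        with z hz1 hz2 hz3
      rw [hz1, Pi.sub_apply, hz2, hz3, ← Complex.ofReal_sub, Complex.norm_real]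
    rw [e2]
    refine le_trans ?_ hΦ.le
    rw [Lp.norm_def, ← e3]
    refine ENNReal.toReal_mono ?_ (eLpNorm_le_eLpNorm_of_exponent_le (by norm_num) e1.aestronglyMeasurable)
    rw [e3]
    exact Lp.eLpNorm_ne_top _
  have h5 : ∀ᶠ Φ in 𝓝 α, ∀ (j : Fin (k + 1)) (s : Fin M), ∫ z, |g j (((sk (T.1 : X → X) Φ)^[(s : ℕ)] z).2) -
      g j (((sk (T.1 : X → X) α)^[(s : ℕ)] z).2)| ∂(μ.prod ν) ≤ η :=
    eventually_all.2 fun j => eventually_all.2 fun s => hcont j s
  filter_upwards [h5] with Φ hΦ j s hs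
  exact hΦ j ⟨s, hs⟩

/-- cocycles with small fibre integrals -/
def Gd (ν : Measure Y) (T : AU μ) {k : ℕ} (g : Fin (k + 1) → Y → ℝ) (ε : ℝ) : Set (Coc X ν) :=
  {Φ | ∃ N, ∀ n, Gap k N n → N1 μ ν (fun z => ∏ j, g j (((sk (T.1 : X → X) Φ)^[n j] z).2)) < ε}

theorem gd_res (T : AU μ) (k : ℕ) (h2 : MixOrd μ T.1 1) (hk : MixOrd μ T.1 k)
    (g : Fin (k + 1) → Y → ℝ) (hg : ∀ j, B1 (g j)) (l : Fin (k + 1))
    (hl : ∫ y, g l y ∂ν = 0) (ε : ℝ) (hε : 0 < ε) : Gd ν T g ε ∈ @residual (Coc X ν) (tC μ ν) := by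
  let _ : TopologicalSpace (Coc X ν) := tC μ ν
  refine Filter.mem_of_superset (residual_of_dense_open (isOpen_interior (s := Gd ν T g ε)) ?_) interior_subset
  rw [dense_iff_inter_open]
  intro O hO hne
  obtain ⟨Φ, hΦ⟩ := hne
  have h3 : ∀ i : ℕ, ∃ (α : Coc X ν) (E : Set X), MeasurableSet E ∧ μ.real E < 1 / ((i : ℝ) + 1) ∧
      (∀ x, x ∉ E → α.1 x = Φ.1 x) ∧ α ∈ interior (Gd ν T g ε) := by
    intro i
    obtain ⟨α, E, hE, hE2, hag, η, M, N, hη, hgood⟩ := good_cocycle T Φ k h2 hk (1 / ((i : ℝ) + 1)) (by positivity)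
      g hg l hl ε hε
    refine ⟨α, E, hE, hE2, hag, ?_⟩
    rw [mem_interior_iff_mem_nhds]
    refine Filter.mem_of_superset (near_nhds T α g hg M η hη) fun Φ' hΦ' => ⟨N, hgood Φ' hΦ'⟩
  choose α E hE1 hE2 hE3 hE4 using h3
  have h4 : Tendsto (fun i => μ.real (E i)) atTop (𝓝 0) :=
    squeeze_zero (fun i => measureReal_nonneg) (fun i => (hE2 i).le) tendsto_one_div_add_atTop_nhds_zero_nat
  have h5 := Final.tend_of_agree (μ := μ) Ind.main Φ α E hE1 h4 hE3
  obtain ⟨i, hi⟩ := (h5.eventually (hO.mem_nhds hΦ)).exists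
  exact ⟨α i, hi, hE4 i⟩

end

end Pool.Agent.V7H90.MM
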