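import Mathlib
import Pool.Agent.V7H90.MM.Dns

set_option autoImplicit false
set_option linter.unusedSectionVars false
set_option linter.unusedVariables false

/-!
Generic extensions of mixing of higher order.
-/

namespace Pool.Agent.V7H90.MM

open MeasureTheory Set Filter Topology
open scoped ENNReal symmDiff
open Pool.H359R3 Pool.H359R3.IX
open Pool.Agent.W744.NG Pool.Agent.W744.NG.Dens Pool.Agent.W744.NG.Theta

/-! ### mixing as a limit -/

/-- times whose gaps tend to infinity -/
def gapF (k : ℕ) : Filter (Fin (k + 1) → ℕ) := ⨅ N, 𝓟 {n | Gap k N n}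

theorem mem_gapF {k : ℕ} (s : Set (Fin (k + 1) → ℕ)) : s ∈ gapF k ↔ ∃ N, ∀ n, Gap k N n → n ∈ s := by
  unfold gapF
  rw [mem_iInf_of_directed]
  · simp only [mem_principal]
    rfl
  · intro N N'
    refine ⟨max N N', ?_, ?_⟩
    · simp only [ge_iff_le, le_principal_iff, mem_principal]
      exact fun n hn => Gap.mono (le_max_left _ _) hn
    · simp only [ge_iff_le, le_principal_iff, mem_principal]
      exact fun n hn => Gap.mono (le_max_right _ _) hn

theorem mixOrd_iff {Z : Type} [MeasurableSpace Z] {m : Measure Z} {S : Z → Z} {k : ℕ} :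
    MixOrd m S k ↔ ∀ A : Fin (k + 1) → Set Z, (∀ i, MeasurableSet (A i)) →
      Tendsto (fun n => m.real (⋂ i, S^[n i] ⁻¹' A i)) (gapF k) (𝓝 (∏ i, m.real (A i))) := by
  unfold MixOrd
  refine forall_congr' fun A => forall_congr' fun hA => ?_
  rw [Metric.tendsto_nhds]
  refine forall_congr' fun ε => forall_congr' fun hε => ?_
  rw [Filter.Eventually, mem_gapF]
  simp only [Real.dist_eq, mem_ofPred_eq]

/-! ### extension to all measurable sets -/

theorem tend_all {Z ι : Type} [mZ : MeasurableSpace Z] {m : Measure Z} [IsProbabilityMeasure m] (F : Filter ι)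
    (φ : ι → Measure Z) (hφ : ∀ n, φ n ≤ m) (p : ℝ) (R : Set (Set Z)) (hR : IsPiSystem R)
    (hgen : mZ = MeasurableSpace.generateFrom R) (huniv : univ ∈ R)
    (hB : ∀ B ∈ R, Tendsto (fun n => (φ n).real B) F (𝓝 (p * m.real B))) (B : Set Z) (hBm : MeasurableSet B) :
    Tendsto (fun n => (φ n).real B) F (𝓝 (p * m.real B)) := by
  have hfin : ∀ n, IsFiniteMeasure (φ n) := fun n =>
    ⟨lt_of_le_of_lt (hφ n univ) (measure_lt_top m univ)⟩
  induction B, hBm using MeasurableSpace.induction_on_inter hgen hR with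
  | empty =>
    simp only [measureReal_empty, mul_zero]
    exact tendsto_const_nhds
  | basic B hBR => exact hB B hBR
  | compl B hBm ih =>
    have h1 := (hB univ huniv).sub ih
    have e1 : ∀ n, (φ n).real Bᶜ = (φ n).real univ - (φ n).real B := fun n => by
      rw [measureReal_compl hBm]
    have e2 : p * m.real Bᶜ = p * m.real univ - p * m.real B := by
      rw [measureReal_compl hBm]
      ring
    rw [e2]
    exact h1.congr fun n => (e1 n).symm
  | iUnion f hd hm ih =>
    have hts : ∀ (ρ : Measure Z) [IsFiniteMeasure ρ], ρ.real (⋃ i, f i) = ∑' i, ρ.real (f i) := by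
      intro ρ _
      rw [measureReal_def, measure_iUnion hd hm, ENNReal.tsum_toReal_eq fun i => measure_ne_top _ _]
      rfl
    have hsum : Summable (fun i => m.real (f i)) := by
      refine ENNReal.summable_toReal ?_
      rw [← measure_iUnion hd hm]
      exact measure_ne_top _ _
    simp_rw [hts]
    rw [← tsum_mul_left]
    refine tendsto_tsum_of_dominated_convergence hsum ih (Eventually.of_forall fun n i => ?_)
    rw [Real.norm_eq_abs, abs_of_nonneg measureReal_nonneg]
    exact ENNReal.toReal_mono (measure_ne_top _ _) (hφ n _)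

theorem coord_ind {Z : Type} [mZ : MeasurableSpace Z] {m : Measure Z} [IsProbabilityMeasure m] {S : Z → Z}
    (hS : MeasurePreserving S m m) (k : ℕ) (R : Set (Set Z)) (hR : IsPiSystem R)
    (hgen : mZ = MeasurableSpace.generateFrom R) (huniv : univ ∈ R)
    (hrec : ∀ A : Fin (k + 1) → Set Z, (∀ i, A i ∈ R) →
      Tendsto (fun n => m.real (⋂ i, S^[n i] ⁻¹' A i)) (gapF k) (𝓝 (∏ i, m.real (A i)))) : MixOrd m S k := by
  classical
  rw [mixOrd_iff]
  have hRm : ∀ B ∈ R, MeasurableSet B := by
    intro B hB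
    rw [hgen]
    exact MeasurableSpace.measurableSet_generateFrom hB
  have key : ∀ J : Finset (Fin (k + 1)), ∀ A : Fin (k + 1) → Set Z, (∀ i, MeasurableSet (A i)) →
      (∀ i, i ∉ J → A i ∈ R) →
      Tendsto (fun n => m.real (⋂ i, S^[n i] ⁻¹' A i)) (gapF k) (𝓝 (∏ i, m.real (A i))) := by
    intro J
    induction J using Finset.induction_on with
    | empty => exact fun A _ hA => hrec A fun i => hA i (Finset.notMem_empty i)
    | insert l J hl ih =>
      intro A hA hAR
      set W : (Fin (k + 1) → ℕ) → Set Z := fun n => ⋂ i, (if i = l then univ else S^[n i] ⁻¹' A i) with hW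
      have hWm : ∀ n, MeasurableSet (W n) := by
        intro n
        refine MeasurableSet.iInter fun i => ?_
        split_ifs
        · exact MeasurableSet.univ
        · exact (hS.iterate _).measurable (hA i)
      set φ : (Fin (k + 1) → ℕ) → Measure Z := fun n => (m.restrict (W n)).map (S^[n l]) with hφ
      have hφle : ∀ n, φ n ≤ m := by
        intro n
        have h1 : (m.restrict (W n)).map (S^[n l]) ≤ m.map (S^[n l]) :=
          Measure.map_mono Measure.restrict_le_self (hS.iterate _).measurable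
        rwa [(hS.iterate (n l)).map_eq] at h1
      have hφr : ∀ n B, MeasurableSet B → (φ n).real B = m.real (⋂ i, S^[n i] ⁻¹' (Function.update A l B) i) := by
        intro n B hB
        rw [measureReal_def, measureReal_def, hφ]
        simp only
        rw [Measure.map_apply (hS.iterate _).measurable hB,
          Measure.restrict_apply ((hS.iterate _).measurable hB)]
        congr 2
        ext z
        simp only [hW, mem_inter_iff, mem_preimage, mem_iInter]
        constructor
        · rintro ⟨h1, h2⟩ i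
          by_cases hi : i = l
          · subst hi
            rw [Function.update_self]
            exact h1
          · rw [Function.update_of_ne hi]
            have := h2 i
            rwa [if_neg hi] at this
        · intro h
          refine ⟨?_, fun i => ?_⟩
          · have := h l
            rwa [Function.update_self] at this
          · by_cases hi : i = l
            · rw [if_pos hi]
              exact mem_univ _
            · rw [if_neg hi]
              have := h i
              rwa [Function.update_of_ne hi] at this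
      have hprod : ∀ B, ∏ i, m.real (Function.update A l B i) =
          (∏ i ∈ Finset.univ.erase l, m.real (A i)) * m.real B := by
        intro B
        rw [← Finset.mul_prod_erase Finset.univ _ (Finset.mem_univ l), Function.update_self, mul_comm]
        congr 1
        refine Finset.prod_congr rfl fun i hi => ?_
        rw [Function.update_of_ne (Finset.ne_of_mem_erase hi)]
      have hall := tend_all (gapF k) φ hφle (∏ i ∈ Finset.univ.erase l, m.real (A i)) R hR hgen huniv
        (fun B hB => by
          have h1 := ih (Function.update A l B) (fun i => by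
            by_cases hi : i = l
            · subst hi
              rw [Function.update_self]
              exact hRm B hB
            · rw [Function.update_of_ne hi]
              exact hA i) (fun i hi => by
            by_cases hil : i = l
            · subst hil
              rw [Function.update_self]
              exact hB
            · rw [Function.update_of_ne hil]
              exact hAR i (by simp [hil, hi]))
          rw [hprod] at h1
          exact h1.congr fun n => (hφr n B (hRm B hB)).symm) (A l) (hA l)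
      have h2 := hprod (A l)
      rw [Function.update_eq_self] at h2
      rw [h2]
      refine hall.congr fun n => ?_
      rw [hφr n (A l) (hA l), Function.update_eq_self]
  exact fun A hA => key Finset.univ A hA fun i hi => absurd (Finset.mem_univ i) hi

/-! ### rectangles -/

section
variable {X Y : Type} [MeasurableSpace X] [StandardBorelSpace X] [MeasurableSpace Y] [StandardBorelSpace Y]
  {μ : Measure X} {ν : Measure Y} [IsProbabilityMeasure μ] [IsProbabilityMeasure ν]

/-- centred indicator functions of some of the sets -/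
noncomputable def gf (ν : Measure Y) {k : ℕ} (Q : Fin (k + 1) → Set Y) (s : Finset (Fin (k + 1)))
    (j : Fin (k + 1)) (y : Y) : ℝ :=
  if j ∈ s then (Q j).indicator (fun _ => (1 : ℝ)) y - ν.real (Q j) else 1

theorem ind_B1 {Z : Type} [MeasurableSpace Z] {B : Set Z} (hB : MeasurableSet B) :
    B1 (B.indicator (fun _ => (1 : ℝ))) := by
  refine ⟨measurable_const.indicator hB, fun z => ?_⟩
  by_cases h : z ∈ B
  · rw [indicator_of_mem h, abs_one]
  · rw [indicator_of_notMem h, abs_zero]
    exact zero_le_one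

theorem gf_B1 {k : ℕ} (Q : Fin (k + 1) → Set Y) (hQ : ∀ j, MeasurableSet (Q j)) (s : Finset (Fin (k + 1)))
    (j : Fin (k + 1)) : B1 (gf ν Q s j) := by
  unfold gf
  by_cases h : j ∈ s
  · simp only [if_pos h]
    refine ⟨(ind_B1 (hQ j)).meas.sub_const _, fun y => ?_⟩
    have h1 : 0 ≤ ν.real (Q j) := measureReal_nonneg
    have h2 : ν.real (Q j) ≤ 1 := measureReal_le_one
    by_cases hy : y ∈ Q j
    · rw [indicator_of_mem hy, abs_le]
      constructor <;> linarith
    · rw [indicator_of_notMem hy, abs_le]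
      constructor <;> linarith
  · simp only [if_neg h]
    exact ⟨measurable_const, fun y => by simp⟩

theorem gf_int {k : ℕ} (Q : Fin (k + 1) → Set Y) (hQ : ∀ j, MeasurableSet (Q j)) (s : Finset (Fin (k + 1)))
    (j : Fin (k + 1)) (hj : j ∈ s) : ∫ y, gf ν Q s j y ∂ν = 0 := by
  unfold gf
  simp only [if_pos hj]
  rw [integral_sub (ind_B1 (hQ j)).intble (integrable_const _), integral_indicator_const _ (hQ j), integral_const]
  simp

theorem N1_sum {ι : Type} (s : Finset ι) (a : ι → ℝ) (P : ι → X × Y → ℝ) (hP : ∀ i, B1 (P i)) :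
    N1 μ ν (fun z => ∑ i ∈ s, a i * P i z) ≤ ∑ i ∈ s, |a i| * N1 μ ν (P i) := by
  unfold N1
  have h1 : ∑ i ∈ s, |a i| * ∫ x, |∫ y, P i (x, y) ∂ν| ∂μ = ∫ x, ∑ i ∈ s, |a i| * |∫ y, P i (x, y) ∂ν| ∂μ := by
    rw [integral_finsetSum _ fun i _ => (fib_abs_intble (hP i)).const_mul _]
    refine Finset.sum_congr rfl fun i _ => ?_
    rw [integral_const_mul]
  rw [h1]
  refine integral_mono_of_nonneg (Eventually.of_forall fun x => abs_nonneg _)
    (integrable_finsetSum _ fun i _ => (fib_abs_intble (hP i)).const_mul _) (Eventually.of_forall fun x => ?_)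
  show |∫ y, ∑ i ∈ s, a i * P i (x, y) ∂ν| ≤ ∑ i ∈ s, |a i| * |∫ y, P i (x, y) ∂ν|
  have h2 : ∀ i, Integrable (fun y => P i (x, y)) ν := fun i => ((hP i).comp measurable_prodMk_left).intble
  rw [integral_finsetSum _ fun i _ => (h2 i).const_mul _]
  refine (Finset.abs_sum_le_sum_abs _ _).trans (Finset.sum_le_sum fun i _ => ?_)
  rw [integral_const_mul, abs_mul]

theorem expand {k : ℕ} (Q : Fin (k + 1) → Set Y) (y : Fin (k + 1) → Y) :
    (∏ j, (Q j).indicator (fun _ => (1 : ℝ)) (y j)) - ∏ j, ν.real (Q j) =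
      ∑ s ∈ (Finset.univ : Finset (Fin (k + 1))).powerset.erase ∅,
        (∏ j ∈ Finset.univ \ s, ν.real (Q j)) * ∏ j, gf ν Q s j (y j) := by
  classical
  have h1 : ∀ j, (Q j).indicator (fun _ => (1 : ℝ)) (y j) =
      ((Q j).indicator (fun _ => (1 : ℝ)) (y j) - ν.real (Q j)) + ν.real (Q j) := fun j => by ring
  have h2 : ∏ j, (Q j).indicator (fun _ => (1 : ℝ)) (y j) =
      ∑ s ∈ (Finset.univ : Finset (Fin (k + 1))).powerset,
        (∏ j ∈ Finset.univ \ s, ν.real (Q j)) * ∏ j, gf ν Q s j (y j) := by
    rw [Finset.prod_congr rfl fun j _ => h1 j, Finset.prod_add]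
    refine Finset.sum_congr rfl fun s hs => ?_
    rw [mul_comm]
    congr 1
    unfold gf
    rw [Finset.prod_ite, Finset.prod_const_one, mul_one]
    refine Finset.prod_congr ?_ fun j _ => rfl
    ext j
    simp
  rw [h2, ← Finset.add_sum_erase _ _ (Finset.empty_mem_powerset (Finset.univ : Finset (Fin (k + 1))))]
  have h3 : (∏ j ∈ Finset.univ \ (∅ : Finset (Fin (k + 1))), ν.real (Q j)) * ∏ j, gf ν Q ∅ j (y j) =
      ∏ j, ν.real (Q j) := by
    simp [gf]
  rw [h3]
  ring

/-- mixing for rectangles -/
theorem rect_mix (T : AU μ) (Φ : Coc X ν) (k : ℕ) (hk : MixOrd μ T.1 k)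
    (D : Fin (k + 1) → Set X) (hD : ∀ j, MeasurableSet (D j))
    (Q : Fin (k + 1) → Set Y) (hQ : ∀ j, MeasurableSet (Q j))
    (hgd : ∀ s : Finset (Fin (k + 1)), s.Nonempty → ∀ ε : ℝ, 0 < ε → Φ ∈ Gd ν T (gf ν Q s) ε) :
    Tendsto (fun n => (μ.prod ν).real (⋂ j, (sk (T.1 : X → X) Φ)^[n j] ⁻¹' (D j ×ˢ Q j))) (gapF k)
      (𝓝 (∏ j, (μ.prod ν).real (D j ×ˢ Q j))) := by
  classical
  set S : X × Y → X × Y := sk (T.1 : X → X) Φ with hS
  have hSmp : ∀ i, MeasurePreserving (S^[i]) (μ.prod ν) (μ.prod ν) := fun i => sk_iter_mp T Φ i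
  set c : ℝ := ∏ j, ν.real (Q j) with hc
  have hc0 : 0 ≤ c := Finset.prod_nonneg fun j _ => measureReal_nonneg
  have hc1 : c ≤ 1 := Finset.prod_le_one (fun j _ => measureReal_nonneg) fun j _ => measureReal_le_one
  -- the base part
  have hbase : Tendsto (fun n => μ.real (⋂ j, (T.1 : X → X)^[n j] ⁻¹' D j) * c) (gapF k)
      (𝓝 (∏ j, (μ.prod ν).real (D j ×ˢ Q j))) := by
    have h1 := (mixOrd_iff.1 hk D hD).mul_const c
    have h2 : ∏ j, (μ.prod ν).real (D j ×ˢ Q j) = (∏ j, μ.real (D j)) * c := by
      rw [hc, ← Finset.prod_mul_distrib]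
      refine Finset.prod_congr rfl fun j _ => ?_
      rw [measureReal_prod_prod]
    rw [h2]
    exact h1
  -- the fibre part
  have hIB : ∀ n : Fin (k + 1) → ℕ, B1 (fun z : X × Y => ∏ j, (Q j).indicator (fun _ => (1 : ℝ)) ((S^[n j] z).2)) :=
    fun n => B1.prod _ fun j => (ind_B1 (hQ j)).comp (measurable_snd.comp (hSmp (n j)).measurable)
  have hfib : Tendsto (fun n : Fin (k + 1) → ℕ => N1 μ ν (fun z : X × Y =>
      (∏ j, (Q j).indicator (fun _ => (1 : ℝ)) ((S^[n j] z).2)) - c)) (gapF k) (𝓝 0) := by
    have h1 : Tendsto (fun n : Fin (k + 1) → ℕ => ∑ s ∈ (Finset.univ : Finset (Fin (k + 1))).powerset.erase ∅,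
        |∏ j ∈ Finset.univ \ s, ν.real (Q j)| * N1 μ ν (fun z : X × Y => ∏ j, gf ν Q s j ((S^[n j] z).2))) (gapF k)
        (𝓝 0) := by
      have h2 : ∀ s ∈ (Finset.univ : Finset (Fin (k + 1))).powerset.erase ∅,
          Tendsto (fun n : Fin (k + 1) → ℕ => |∏ j ∈ Finset.univ \ s, ν.real (Q j)| *
            N1 μ ν (fun z : X × Y => ∏ j, gf ν Q s j ((S^[n j] z).2))) (gapF k) (𝓝 0) := by
        intro s hs
        have hsne : s.Nonempty := Finset.nonempty_iff_ne_empty.2 (Finset.ne_of_mem_erase hs)
        have h3 : Tendsto (fun n : Fin (k + 1) → ℕ =>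
            N1 μ ν (fun z : X × Y => ∏ j, gf ν Q s j ((S^[n j] z).2))) (gapF k) (𝓝 0) := by
          rw [Metric.tendsto_nhds]
          intro ε hε
          rw [Filter.Eventually, mem_gapF]
          obtain ⟨N, hN⟩ := hgd s hsne ε hε
          refine ⟨N, fun n hn => ?_⟩
          rw [mem_ofPred_eq, Real.dist_eq, sub_zero, abs_of_nonneg (N1_nonneg _)]
          exact hN n hn
        have h4 := h3.const_mul |∏ j ∈ Finset.univ \ s, ν.real (Q j)|
        rwa [mul_zero] at h4
      have h5 := tendsto_finsetSum _ h2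
      simpa using h5
    refine squeeze_zero (fun n => N1_nonneg _) (fun n => ?_) h1
    have h6 : (fun z : X × Y => (∏ j, (Q j).indicator (fun _ => (1 : ℝ)) ((S^[n j] z).2)) - c) =
        fun z => ∑ s ∈ (Finset.univ : Finset (Fin (k + 1))).powerset.erase ∅,
          (∏ j ∈ Finset.univ \ s, ν.real (Q j)) * ∏ j, gf ν Q s j ((S^[n j] z).2) := by
      funext z
      exact expand Q fun j => (S^[n j] z).2
    rw [h6]
    exact N1_sum _ _ (fun s z => ∏ j, gf ν Q s j ((S^[n j] z).2)) fun s =>
      B1.prod _ fun j => (gf_B1 Q hQ s j).comp (measurable_snd.comp (hSmp (n j)).measurable)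
  -- comparison
  have hcmp : ∀ n : Fin (k + 1) → ℕ, |(μ.prod ν).real (⋂ j, S^[n j] ⁻¹' (D j ×ˢ Q j)) -
      μ.real (⋂ j, (T.1 : X → X)^[n j] ⁻¹' D j) * c| ≤ N1 μ ν (fun z : X × Y =>
        (∏ j, (Q j).indicator (fun _ => (1 : ℝ)) ((S^[n j] z).2)) - c) := by
    intro n
    set B : Set X := ⋂ j, (T.1 : X → X)^[n j] ⁻¹' D j with hB
    have hBm : MeasurableSet B := MeasurableSet.iInter fun j => (T.1.measurable.iterate _) (hD j)
    have hAm : MeasurableSet (⋂ j, S^[n j] ⁻¹' (D j ×ˢ Q j)) :=
      MeasurableSet.iInter fun j => (hSmp _).measurable ((hD j).prod (hQ j))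
    have e1 : (μ.prod ν).real (⋂ j, S^[n j] ⁻¹' (D j ×ˢ Q j)) =
        ∫ x, B.indicator (fun _ => (1 : ℝ)) x *
          ∫ y, ∏ j, (Q j).indicator (fun _ => (1 : ℝ)) ((S^[n j] (x, y)).2) ∂ν ∂μ := by
      have e2 : (μ.prod ν).real (⋂ j, S^[n j] ⁻¹' (D j ×ˢ Q j)) =
          ∫ z, B.indicator (fun _ => (1 : ℝ)) z.1 *
            ∏ j, (Q j).indicator (fun _ => (1 : ℝ)) ((S^[n j] z).2) ∂(μ.prod ν) := by
        rw [← integral_indicator_one hAm]
        refine integral_congr_ae (Eventually.of_forall fun z => ?_)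
        show (⋂ j, S^[n j] ⁻¹' (D j ×ˢ Q j)).indicator 1 z = B.indicator (fun _ => (1 : ℝ)) z.1 *
            ∏ j, (Q j).indicator (fun _ => (1 : ℝ)) ((S^[n j] z).2)
        by_cases hz : z ∈ ⋂ j, S^[n j] ⁻¹' (D j ×ˢ Q j)
        · rw [indicator_of_mem hz]
          rw [mem_iInter] at hz
          have e3 : z.1 ∈ B := by
            rw [hB, mem_iInter]
            intro j
            have := (hz j).1
            rw [hS, sk_iter_fst] at this
            exact this
          rw [indicator_of_mem e3, one_mul]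
          symm
          refine Finset.prod_eq_one fun j _ => ?_
          rw [indicator_of_mem (hz j).2]
        · rw [indicator_of_notMem hz]
          rw [mem_iInter, not_forall] at hz
          obtain ⟨j, hj⟩ := hz
          rw [mem_preimage, mem_prod, not_and_or] at hj
          rcases hj with hj | hj
          · have e3 : z.1 ∉ B := by
              rw [hB, mem_iInter, not_forall]
              refine ⟨j, ?_⟩
              rw [hS, sk_iter_fst] at hj
              exact hj
            rw [indicator_of_notMem e3, zero_mul]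
          · symm
            apply mul_eq_zero_of_right
            refine Finset.prod_eq_zero (Finset.mem_univ j) ?_
            rw [indicator_of_notMem hj]
      rw [e2, integral_prod]
      · refine integral_congr_ae (Eventually.of_forall fun x => ?_)
        simp only
        rw [integral_const_mul]
      · exact (((ind_B1 hBm).comp measurable_fst).mul (hIB n)).intble
    have e4 : μ.real B * c = ∫ x, B.indicator (fun _ => (1 : ℝ)) x * c ∂μ := by
      rw [integral_mul_const, integral_indicator_const _ hBm]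
      simp
    have hfi : Integrable (fun x => ∫ y, ∏ j, (Q j).indicator (fun _ => (1 : ℝ)) ((S^[n j] (x, y)).2) ∂ν) μ :=
      ((hIB n).intble (m := μ.prod ν)).integral_prod_left
    have hI1 : Integrable (fun x => B.indicator (fun _ => (1 : ℝ)) x *
          ∫ y, ∏ j, (Q j).indicator (fun _ => (1 : ℝ)) ((S^[n j] (x, y)).2) ∂ν) μ := by
      refine Integrable.of_bound ((ind_B1 hBm).meas.mul (fib_meas (ν := ν) (hIB n).meas)).aestronglyMeasurable 1
        (Eventually.of_forall fun x => ?_)
      rw [Real.norm_eq_abs, abs_mul]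
      exact mul_le_one₀ ((ind_B1 hBm).bd x) (abs_nonneg _) (abs_int_le fun y => (hIB n).bd (x, y))
    have hI2 : Integrable (fun x => B.indicator (fun _ => (1 : ℝ)) x * c) μ :=
      ((ind_B1 hBm).intble).mul_const c
    rw [e1, e4, ← integral_sub hI1 hI2]
    refine abs_integral_le_integral_abs.trans ?_
    unfold N1
    have hid : Integrable (fun x => |∫ y, ((∏ j, (Q j).indicator (fun _ => (1 : ℝ)) ((S^[n j] (x, y)).2)) - c) ∂ν|) μ := by
      have : Integrable (fun z : X × Y => (∏ j, (Q j).indicator (fun _ => (1 : ℝ)) ((S^[n j] z).2)) - c) (μ.prod ν) :=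
        (hIB n).intble.sub (integrable_const _)
      exact this.integral_prod_left.abs
    refine integral_mono (hI1.sub hI2).abs hid fun x => ?_
    show |B.indicator (fun _ => (1 : ℝ)) x * (∫ y, ∏ j, (Q j).indicator (fun _ => (1 : ℝ)) ((S^[n j] (x, y)).2) ∂ν) -
      B.indicator (fun _ => (1 : ℝ)) x * c| ≤ _
    have e5 : Integrable (fun y => ∏ j, (Q j).indicator (fun _ => (1 : ℝ)) ((S^[n j] (x, y)).2)) ν :=
      ((hIB n).comp measurable_prodMk_left).intble
    show _ ≤ |∫ y, ((∏ j, (Q j).indicator (fun _ => (1 : ℝ)) ((S^[n j] (x, y)).2)) - c) ∂ν|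
    rw [integral_sub e5 (integrable_const _), integral_const, ← mul_sub, abs_mul]
    simp only [probReal_univ, one_smul]
    exact mul_le_of_le_one_left (abs_nonneg _) ((ind_B1 hBm).bd x)
  have hdiff : Tendsto (fun n : Fin (k + 1) → ℕ => (μ.prod ν).real (⋂ j, S^[n j] ⁻¹' (D j ×ˢ Q j)) -
      μ.real (⋂ j, (T.1 : X → X)^[n j] ⁻¹' D j) * c) (gapF k) (𝓝 0) :=
    squeeze_zero_norm hcmp hfib
  have h7 := hdiff.add hbase
  rw [zero_add] at h7
  exact h7.congr fun n => by ring

variable [NullSingletonClass μ] [NullSingletonClass ν]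

/-- the generic extension is mixing of order `k` -/
theorem mix_res (T : AU μ) (k : ℕ) (h2 : MixOrd μ T.1 1) (hk : MixOrd μ T.1 k) :
    {Φ : Coc X ν | MixOrd (μ.prod ν) (sk (T.1 : X → X) Φ) k} ∈ @residual (Coc X ν) (tC μ ν) := by
  classical
  let _ : TopologicalSpace (Coc X ν) := tC μ ν
  set QQ : Set (Set Y) := generateSetAlgebra (MeasurableSpace.countableGeneratingSet Y) with hQQ
  have hQc : QQ.Countable := countable_generateSetAlgebra MeasurableSpace.countable_countableGeneratingSet
  have hQg : MeasurableSpace.generateFrom QQ = ‹MeasurableSpace Y› := by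
    rw [hQQ, generateFrom_generateSetAlgebra_eq, MeasurableSpace.generateFrom_countableGeneratingSet]
  have hQa : IsSetAlgebra QQ := isSetAlgebra_generateSetAlgebra
  have hQm : ∀ B ∈ QQ, MeasurableSet B := by
    intro B hB
    rw [← hQg]
    exact MeasurableSpace.measurableSet_generateFrom hB
  have hcount : Countable QQ := hQc.to_subtype
  have h1 : (⋂ (Q : Fin (k + 1) → QQ), ⋂ (s : {s : Finset (Fin (k + 1)) // s.Nonempty}), ⋂ e : ℕ,
      Gd ν T (gf ν (fun j => (Q j : Set Y)) s.1) (1 / ((e : ℝ) + 1))) ∈ residual (Coc X ν) := by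
    rw [countable_iInter_mem]
    intro Q
    rw [countable_iInter_mem]
    rintro ⟨s, hs⟩
    rw [countable_iInter_mem]
    intro e
    obtain ⟨l, hl⟩ := hs
    exact gd_res T k h2 hk _ (gf_B1 _ (fun j => hQm _ (Q j).2) s) l
      (gf_int _ (fun j => hQm _ (Q j).2) s l hl) _ (by positivity)
  refine Filter.mem_of_superset h1 ?_
  intro Φ hΦ
  rw [mem_iInter] at hΦ
  show MixOrd (μ.prod ν) (sk (T.1 : X → X) Φ) k
  have hgd : ∀ Q : Fin (k + 1) → Set Y, (∀ j, Q j ∈ QQ) → ∀ s : Finset (Fin (k + 1)), s.Nonempty →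
      ∀ ε : ℝ, 0 < ε → Φ ∈ Gd ν T (gf ν Q s) ε := by
    intro Q hQ s hs ε hε
    obtain ⟨e, he⟩ := exists_nat_one_div_lt hε
    have h2 := hΦ (fun j => ⟨Q j, hQ j⟩)
    rw [mem_iInter] at h2
    have h3 := h2 ⟨s, hs⟩
    rw [mem_iInter] at h3
    obtain ⟨N, hN⟩ := h3 e
    exact ⟨N, fun n hn => (hN n hn).trans he⟩
  have hpi : IsPiSystem (image2 (· ×ˢ ·) {D : Set X | MeasurableSet D} QQ) := by
    refine IsPiSystem.prod ?_ ?_
    · exact MeasurableSpace.isPiSystem_measurableSet
    · exact fun s hs t ht _ => hQa.inter_mem hs ht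
  have hgen : (inferInstance : MeasurableSpace (X × Y)) =
      MeasurableSpace.generateFrom (image2 (· ×ˢ ·) {D : Set X | MeasurableSet D} QQ) := by
    refine (generateFrom_eq_prod MeasurableSpace.generateFrom_measurableSet hQg ?_ ?_).symm
    · exact isCountablySpanning_measurableSet
    · exact ⟨fun _ => univ, fun _ => hQa.univ_mem, iUnion_const _⟩
  refine coord_ind (sk_mp T Φ) k _ hpi hgen ⟨univ, MeasurableSet.univ, univ, hQa.univ_mem, univ_prod_univ⟩ ?_
  intro A hA
  choose D hD Q hQ hDQ using hA
  have hA2 : A = fun j => D j ×ˢ Q j := funext fun j => (hDQ j).symm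
  rw [hA2]
  exact rect_mix T Φ k hk D hD Q (fun j => hQm _ (hQ j)) (fun s hs ε hε => hgd Q hQ s hs ε hε)

end

end Pool.Agent.V7H90.MM
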